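import Pool.Agent.H7.AC.Near

/-! The parts outside the main ranges. -/

open MeasureTheory Filter Topology Real
open scoped ENNReal

namespace Pool.Agent.H7.AC

open Pool.Agent.H7.PS Pool.Agent.H7.LH

lemma qd_crude {v δ : ℝ} (hδ : 0 ≤ δ) :
    qd (v, δ) ≤ ENNReal.ofReal (cC ^ 2 * Real.exp (2 * δ)) * ENNReal.ofReal (Real.exp v) := by
  rw [← ENNReal.ofReal_mul (by positivity)]
  unfold qd
  refine ENNReal.ofReal_le_ofReal ?_
  show Real.exp (-v) * dn v δ ^ 2 ≤ _
  have h1 : |dn v δ| ≤ cC * Real.exp (v + δ) := by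
    have h := dP_abs (a := Real.exp v) (H := Real.exp (v + δ) - Real.exp v) (Real.exp_pos v).le
      (sub_nonneg.2 (Real.exp_le_exp.2 (by linarith)))
    unfold dP at h
    rw [add_sub_cancel] at h
    exact h
  have h2 : dn v δ ^ 2 ≤ (cC * Real.exp (v + δ)) ^ 2 := by
    rw [← sq_abs]
    exact pow_le_pow_left₀ (abs_nonneg _) h1 2
  refine (mul_le_mul_of_nonneg_left h2 (Real.exp_pos _).le).trans (le_of_eq ?_)
  have e1 : Real.exp (2 * δ) = Real.exp δ * Real.exp δ := by
    rw [← Real.exp_add]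
    congr 1
    ring
  rw [Real.exp_neg, Real.exp_add, e1]
  have := Real.exp_pos v
  field_simp

/-- the weights, away from their support -/
lemma Om1_out {κ M D T g : ℝ} {K : ℝ → ℝ} (h : WK κ M D K) (hT : 1 < T) (hM : 0 ≤ M)
    {A : Set ℝ} (hA : MeasurableSet A)
    (hg : ∀ v ∈ A, ∀ u, Real.log T / 2 ≤ u → u ≤ κ * Real.log T → 4 * g ≤ (u - v) ^ 2) :
    ∫⁻ v in A, Om1 (kT K T) v * ENNReal.ofReal (Real.exp v) ≤
      ENNReal.ofReal (Real.exp (-g) * (4 * M * Real.sqrt (4 * π) *
        Real.exp (κ * Real.log T + 1) * (κ * Real.log T))) := by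
  have hL : 0 < Real.log T := Real.log_pos hT
  obtain ⟨L, hLd⟩ : ∃ L, L = Real.log T := ⟨_, rfl⟩
  obtain ⟨q, hq⟩ : ∃ q, q = 4 * M * Real.exp (-g) * Real.exp (κ * L + 1) := ⟨_, rfl⟩
  have hq0 : 0 ≤ q := by rw [hq]; positivity
  have h1 : ∀ v ∈ A, Om1 (kT K T) v * ENNReal.ofReal (Real.exp v) ≤
      ∫⁻ u in Set.Ioc 0 (κ * L), ENNReal.ofReal q *
        ENNReal.ofReal (Real.exp (-(1 / 4) * (v - (u + 2)) ^ 2)) := by
    intro v hv
    unfold Om1
    rw [← lintegral_mul_const' _ _ ENNReal.ofReal_ne_top, ← lintegral_indicator measurableSet_Ioi,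
      ← lintegral_indicator measurableSet_Ioc]
    refine lintegral_mono fun u => ?_
    by_cases hu : u ∈ Set.Ioi (0 : ℝ)
    · rw [Set.indicator_of_mem hu]
      have hu0 : 0 < u := hu
      unfold kT
      by_cases hK : K (u / Real.log T) = 0
      · rw [hK, ENNReal.ofReal_zero, zero_mul, zero_mul]
        exact zero_le
      · obtain ⟨k1, k2⟩ := h.supp _ (by positivity) hK
        rw [le_div_iff₀ hL] at k1
        rw [div_le_iff₀ hL] at k2
        have hmem : u ∈ Set.Ioc 0 (κ * L) := ⟨hu0, by rw [hLd]; exact k2⟩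
        rw [Set.indicator_of_mem hmem]
        have k3 := hg v hv u (by linarith) k2
        rw [← ENNReal.ofReal_mul (h.nonneg _), ← ENNReal.ofReal_mul
          (mul_nonneg (h.nonneg _) (by positivity)), ← ENNReal.ofReal_mul hq0]
        refine ENNReal.ofReal_le_ofReal ?_
        have k5 := h.bound (u / Real.log T)
        have k6 : Real.exp (-(u - v) ^ 2 / 2) * Real.exp v ≤ Real.exp (-g) *
            Real.exp (κ * L + 1) * Real.exp (-(1 / 4) * (v - (u + 2)) ^ 2) := by
          rw [← Real.exp_add, ← Real.exp_add, ← Real.exp_add]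
          refine Real.exp_le_exp.2 ?_
          rw [hLd]
          nlinarith
        calc K (u / Real.log T) * (4 * Real.exp (-(u - v) ^ 2 / 2)) * Real.exp v =
            K (u / Real.log T) * (4 * (Real.exp (-(u - v) ^ 2 / 2) * Real.exp v)) := by ring
          _ ≤ M * (4 * (Real.exp (-g) *
            Real.exp (κ * L + 1) * Real.exp (-(1 / 4) * (v - (u + 2)) ^ 2))) := by gcongr
          _ = _ := by rw [hq]; ring
    · rw [Set.indicator_of_notMem hu]
      exact zero_le
  refine (setLIntegral_mono' hA h1).trans ((setLIntegral_le_lintegral _ _).trans ?_)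
  rw [lintegral_lintegral_swap]
  · have h2 : ∀ u : ℝ, ∫⁻ v, ENNReal.ofReal q *
        ENNReal.ofReal (Real.exp (-(1 / 4) * (v - (u + 2)) ^ 2)) =
        ENNReal.ofReal q * ENNReal.ofReal (Real.sqrt (4 * π)) := by
      intro u
      rw [lintegral_const_mul' _ _ ENNReal.ofReal_ne_top, gauss_lint (by norm_num)]
      congr 3
      ring
    simp_rw [h2]
    rw [lintegral_const, Measure.restrict_apply_univ, Real.volume_Ioc, sub_zero,
      ← ENNReal.ofReal_mul hq0, ← ENNReal.ofReal_mul (by positivity)]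
    refine ENNReal.ofReal_le_ofReal (le_of_eq ?_)
    rw [hq, hLd]
    ring
  · refine Measurable.aemeasurable ?_
    exact measurable_const.mul (by fun_prop : Measurable fun p : ℝ × ℝ =>
      Real.exp (-(1 / 4) * (p.1 - (p.2 + 2)) ^ 2)).ennreal_ofReal

lemma mom_one {S : ℝ} (hS : 0 < S) :
    ∫⁻ δ in Set.Ioi (0 : ℝ), ENNReal.ofReal (Real.exp (-S * δ) * δ) = ENNReal.ofReal (1 / S ^ 2) := by
  have h1 := Real.integral_rpow_mul_exp_neg_mul_Ioi (a := 2) (r := S) (by norm_num) hS
  have h2 : ∫ t : ℝ in Set.Ioi 0, Real.exp (-S * t) * t = 1 / S ^ 2 := by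
    have h3 : ∫ t : ℝ in Set.Ioi 0, Real.exp (-S * t) * t =
        ∫ t : ℝ in Set.Ioi 0, t ^ ((2 : ℝ) - 1) * Real.exp (-(S * t)) := by
      refine setIntegral_congr_fun measurableSet_Ioi fun t ht => ?_
      show Real.exp (-S * t) * t = t ^ ((2 : ℝ) - 1) * Real.exp (-(S * t))
      norm_num
      ring
    rw [h3, h1, Real.Gamma_two, mul_one]
    norm_num
  have hS2 : (0 : ℝ) < 1 / S ^ 2 := by positivity
  have hi : IntegrableOn (fun t : ℝ => Real.exp (-S * t) * t) (Set.Ioi 0) := by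
    by_contra hc
    rw [integral_undef hc] at h2
    linarith
  rw [← ofReal_integral_eq_lintegral_ofReal hi
    ((ae_restrict_iff' measurableSet_Ioi).2 (Eventually.of_forall fun t ht => by
      have : (0 : ℝ) < t := ht
      positivity)), h2]

lemma exp_tail {S b : ℝ} (hS : 0 < S) :
    ∫⁻ δ in Set.Ioi b, ENNReal.ofReal (Real.exp (-S * δ)) =
      ENNReal.ofReal (Real.exp (-S * b) / S) := by
  have h1 := integral_exp_mul_Ioi (a := -S) (by linarith) b
  have hi := integrableOn_exp_mul_Ioi (a := -S) (by linarith) b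
  rw [← ofReal_integral_eq_lintegral_ofReal hi (Eventually.of_forall fun t => (Real.exp_pos _).le),
    h1]
  congr 1
  rw [div_neg, neg_div, neg_neg]

end Pool.Agent.H7.AC
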