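import Pool.Agent.H7.AC.Crd

/-! The functional, from bounds in the different ranges. -/

open MeasureTheory Filter Topology Real
open scoped ENNReal

namespace Pool.Agent.H7.AC

open Pool.Agent.H7.PS Pool.Agent.H7.LH

theorem jf_gen {S E G I d0 a b d1 : ℝ} {Ω : ℝ → ℝ≥0∞} (hS : 2 < S) (hE0 : 0 ≤ E) (hG0 : 0 ≤ G)
    (hI0 : 0 ≤ I) (hd0 : 0 ≤ d0) (h0a : d0 ≤ a) (hab : a ≤ b) (hb1 : b ≤ d1)
    (hE : ∫⁻ v, Ω v * ENNReal.ofReal (Real.exp v) ≤ ENNReal.ofReal E)
    (hG : ∀ δ, d0 < δ → δ ≤ d1 → ∫⁻ v, Ω v * qd (v, δ) ≤ ENNReal.ofReal (G * δ))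
    (hI : ∀ δ, a < δ → δ ≤ b → ∫⁻ v, Ω v * qd (v, δ) ≤ ENNReal.ofReal (I * δ)) :
    JF S Ω ≤ ENNReal.ofReal (cC ^ 2 * E * Real.exp (2 * d0) * d0 + G * a ^ 2 + I / S ^ 2 +
      G / S ^ 2 * (2 * Real.exp (-(S / 2) * b)) +
      cC ^ 2 * E * (Real.exp (-(S - 2) * d1) / (S - 2))) := by
  have hS0 : 0 < S := by linarith
  have hc := cC_one
  have ha0 : 0 ≤ a := hd0.trans h0a
  have hb0 : 0 ≤ b := ha0.trans hab
  have hd10 : 0 ≤ d1 := hb0.trans hb1
  have hcr : ∀ δ, 0 ≤ δ → ∫⁻ v, Ω v * qd (v, δ) ≤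
      ENNReal.ofReal (cC ^ 2 * Real.exp (2 * δ)) * ENNReal.ofReal E := by
    intro δ hδ
    calc ∫⁻ v, Ω v * qd (v, δ) ≤ ∫⁻ v, ENNReal.ofReal (cC ^ 2 * Real.exp (2 * δ)) *
          (Ω v * ENNReal.ofReal (Real.exp v)) := by
          refine lintegral_mono fun v => ?_
          calc Ω v * qd (v, δ) ≤ Ω v * (ENNReal.ofReal (cC ^ 2 * Real.exp (2 * δ)) *
              ENNReal.ofReal (Real.exp v)) := mul_le_mul_right (qd_crude hδ) _
            _ = _ := by ring
      _ = ENNReal.ofReal (cC ^ 2 * Real.exp (2 * δ)) *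
          ∫⁻ v, Ω v * ENNReal.ofReal (Real.exp v) :=
          lintegral_const_mul' _ _ ENNReal.ofReal_ne_top
      _ ≤ _ := mul_le_mul_right hE _
  obtain ⟨F, hF⟩ : ∃ F : ℝ → ℝ≥0∞, F = fun δ => ENNReal.ofReal (Real.exp (-S * δ)) *
      ∫⁻ v, Ω v * qd (v, δ) := ⟨_, rfl⟩
  have hJ : JF S Ω = ∫⁻ δ in Set.Ioi (0 : ℝ), F δ := by rw [hF]; rfl
  have hsplit : Set.Ioi (0 : ℝ) ⊆ Set.Ioc 0 d0 ∪ (Set.Ioc d0 a ∪ (Set.Ioc a b ∪
      (Set.Ioc b d1 ∪ Set.Ioi d1))) := by
    intro x hx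
    have hx0 : 0 < x := hx
    by_cases j1 : x ≤ d0
    · exact Or.inl ⟨hx0, j1⟩
    by_cases j2 : x ≤ a
    · exact Or.inr (Or.inl ⟨not_le.1 j1, j2⟩)
    by_cases j3 : x ≤ b
    · exact Or.inr (Or.inr (Or.inl ⟨not_le.1 j2, j3⟩))
    by_cases j4 : x ≤ d1
    · exact Or.inr (Or.inr (Or.inr (Or.inl ⟨not_le.1 j3, j4⟩)))
    · exact Or.inr (Or.inr (Or.inr (Or.inr (not_le.1 j4))))
  have hs : ∫⁻ δ in Set.Ioi (0 : ℝ), F δ ≤ (∫⁻ δ in Set.Ioc 0 d0, F δ) +
      ((∫⁻ δ in Set.Ioc d0 a, F δ) + ((∫⁻ δ in Set.Ioc a b, F δ) +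
        ((∫⁻ δ in Set.Ioc b d1, F δ) + ∫⁻ δ in Set.Ioi d1, F δ))) := by
    refine (lintegral_mono_set hsplit).trans ?_
    refine (lintegral_union_le _ _ _).trans (add_le_add le_rfl ?_)
    refine (lintegral_union_le _ _ _).trans (add_le_add le_rfl ?_)
    refine (lintegral_union_le _ _ _).trans (add_le_add le_rfl ?_)
    exact lintegral_union_le _ _ _
  have p1 : ∫⁻ δ in Set.Ioc 0 d0, F δ ≤ ENNReal.ofReal (cC ^ 2 * E * Real.exp (2 * d0) * d0) := by
    have h1 : ∫⁻ δ in Set.Ioc 0 d0, F δ ≤ ∫⁻ _ in Set.Ioc 0 d0,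
        ENNReal.ofReal (cC ^ 2 * E * Real.exp (2 * d0)) := by
      refine setLIntegral_mono' measurableSet_Ioc fun δ hδ => ?_
      rw [hF]
      refine (mul_le_mul_right (hcr δ hδ.1.le) _).trans ?_
      rw [← ENNReal.ofReal_mul (by positivity), ← ENNReal.ofReal_mul (by positivity)]
      refine ENNReal.ofReal_le_ofReal ?_
      have h2 : Real.exp (-S * δ) ≤ 1 := by
        rw [Real.exp_le_one_iff]
        have := mul_pos hS0 hδ.1
        linarith
      have h3 : Real.exp (2 * δ) ≤ Real.exp (2 * d0) := Real.exp_le_exp.2 (by linarith [hδ.2])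
      calc Real.exp (-S * δ) * (cC ^ 2 * Real.exp (2 * δ) * E) ≤
          1 * (cC ^ 2 * Real.exp (2 * d0) * E) := by gcongr
        _ = _ := by ring
    refine h1.trans (le_of_eq ?_)
    rw [lintegral_const, Measure.restrict_apply_univ, Real.volume_Ioc, sub_zero,
      ← ENNReal.ofReal_mul (by positivity)]
  have p2 : ∫⁻ δ in Set.Ioc d0 a, F δ ≤ ENNReal.ofReal (G * a ^ 2) := by
    have h1 : ∫⁻ δ in Set.Ioc d0 a, F δ ≤ ∫⁻ _ in Set.Ioc d0 a, ENNReal.ofReal (G * a) := by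
      refine setLIntegral_mono' measurableSet_Ioc fun δ hδ => ?_
      rw [hF]
      have hδ0 : 0 < δ := hd0.trans_lt hδ.1
      refine (mul_le_mul_right (hG δ hδ.1 (hδ.2.trans (hab.trans hb1))) _).trans ?_
      rw [← ENNReal.ofReal_mul (by positivity)]
      refine ENNReal.ofReal_le_ofReal ?_
      have h2 : Real.exp (-S * δ) ≤ 1 := by
        rw [Real.exp_le_one_iff]
        have := mul_pos hS0 hδ0
        linarith
      calc Real.exp (-S * δ) * (G * δ) ≤ 1 * (G * a) := by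
            have := hδ.2
            gcongr
        _ = _ := by ring
    refine h1.trans ?_
    rw [lintegral_const, Measure.restrict_apply_univ, Real.volume_Ioc,
      ← ENNReal.ofReal_mul (by positivity)]
    refine ENNReal.ofReal_le_ofReal ?_
    have h3 : G * a * (a - d0) ≤ G * a * a := mul_le_mul_of_nonneg_left (by linarith) (by positivity)
    linarith
  have p3 : ∫⁻ δ in Set.Ioc a b, F δ ≤ ENNReal.ofReal (I / S ^ 2) := by
    have h1 : ∫⁻ δ in Set.Ioc a b, F δ ≤ ∫⁻ δ in Set.Ioc a b, ENNReal.ofReal I *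
        ENNReal.ofReal (Real.exp (-S * δ) * δ) := by
      refine setLIntegral_mono' measurableSet_Ioc fun δ hδ => ?_
      rw [hF]
      refine (mul_le_mul_right (hI δ hδ.1 hδ.2) _).trans (le_of_eq ?_)
      rw [← ENNReal.ofReal_mul (by positivity), ← ENNReal.ofReal_mul hI0]
      congr 1
      ring
    refine h1.trans ?_
    rw [lintegral_const_mul' _ _ ENNReal.ofReal_ne_top]
    refine (mul_le_mul_right ((lintegral_mono_set fun x hx => Set.mem_Ioi.2
      (ha0.trans_lt hx.1)).trans (mom_one hS0).le) _).trans (le_of_eq ?_)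
    rw [← ENNReal.ofReal_mul hI0]
    congr 1
    ring
  have p4 : ∫⁻ δ in Set.Ioc b d1, F δ ≤
      ENNReal.ofReal (G / S ^ 2 * (2 * Real.exp (-(S / 2) * b))) := by
    have h1 : ∫⁻ δ in Set.Ioc b d1, F δ ≤ ∫⁻ δ in Set.Ioc b d1, ENNReal.ofReal (G / S ^ 2) *
        ENNReal.ofReal (S ^ 2 * δ * Real.exp (-S * δ)) := by
      refine setLIntegral_mono' measurableSet_Ioc fun δ hδ => ?_
      rw [hF]
      refine (mul_le_mul_right (hG δ ((h0a.trans hab).trans_lt hδ.1) hδ.2) _).trans (le_of_eq ?_)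
      rw [← ENNReal.ofReal_mul (by positivity), ← ENNReal.ofReal_mul (by positivity)]
      congr 1
      field_simp
    refine h1.trans ?_
    rw [lintegral_const_mul' _ _ ENNReal.ofReal_ne_top, ENNReal.ofReal_mul (p := G / S ^ 2)
      (by positivity)]
    refine mul_le_mul_right ?_ _
    exact (lintegral_mono_set fun x hx => Set.mem_Ioi.2 hx.1).trans (exp_mom hS0 hb0)
  have p5 : ∫⁻ δ in Set.Ioi d1, F δ ≤
      ENNReal.ofReal (cC ^ 2 * E * (Real.exp (-(S - 2) * d1) / (S - 2))) := by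
    have h1 : ∫⁻ δ in Set.Ioi d1, F δ ≤ ∫⁻ δ in Set.Ioi d1, ENNReal.ofReal (cC ^ 2 * E) *
        ENNReal.ofReal (Real.exp (-(S - 2) * δ)) := by
      refine setLIntegral_mono' measurableSet_Ioi fun δ hδ => ?_
      rw [hF]
      have hδ1 : d1 < δ := hδ
      refine (mul_le_mul_right (hcr δ (hd10.trans hδ1.le)) _).trans (le_of_eq ?_)
      rw [← ENNReal.ofReal_mul (by positivity), ← ENNReal.ofReal_mul (by positivity),
        ← ENNReal.ofReal_mul (by positivity)]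
      congr 1
      have e1 : Real.exp (-(S - 2) * δ) = Real.exp (-S * δ) * Real.exp (2 * δ) := by
        rw [← Real.exp_add]
        congr 1
        ring
      rw [e1]
      ring
    refine h1.trans (le_of_eq ?_)
    rw [lintegral_const_mul' _ _ ENNReal.ofReal_ne_top, exp_tail (by linarith),
      ← ENNReal.ofReal_mul (by positivity)]
  rw [hJ]
  refine (hs.trans (add_le_add p1 (add_le_add p2 (add_le_add p3 (add_le_add p4 p5))))).trans
    (le_of_eq ?_)
  have hS2 : 0 < S - 2 := by linarith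
  rw [← ENNReal.ofReal_add (by positivity) (by positivity),
    ← ENNReal.ofReal_add (by positivity) (by positivity),
    ← ENNReal.ofReal_add (by positivity) (by positivity),
    ← ENNReal.ofReal_add (by positivity) (by positivity)]
  congr 1
  ring

end Pool.Agent.H7.AC
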