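import Pool.Agent.H7.AC.Shp

/-! The functional. -/

open MeasureTheory Filter Topology Real
open scoped ENNReal

namespace Pool.Agent.H7.AC

open Pool.Agent.H7.PS Pool.Agent.H7.LH

/-- the total mass of the weight -/
noncomputable def E0 (M κ T : ℝ) : ℝ :=
  4 * M * Real.sqrt (4 * π) * Real.exp (κ * Real.log T + 1) * (κ * Real.log T)

lemma E0_nonneg {M κ T : ℝ} (hM : 0 ≤ M) (hκ : 0 ≤ κ) (hT : 1 < T) : 0 ≤ E0 M κ T := by
  have := Real.log_pos hT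
  unfold E0
  positivity

lemma E0_eq {M κ T : ℝ} (hT : 1 < T) :
    E0 M κ T = 4 * M * Real.sqrt (4 * π) * Real.exp 1 * κ * (T ^ κ * Real.log T) := by
  unfold E0
  rw [Real.exp_add, Real.rpow_def_of_pos (by linarith), mul_comm (Real.log T) κ]
  ring

lemma E0_mass {κ M D T : ℝ} {K : ℝ → ℝ} (h : WK κ M D K) (hM : 0 ≤ M) (hT : 1 < T) :
    ∫⁻ v, Om1 (kT K T) v * ENNReal.ofReal (Real.exp v) ≤ ENNReal.ofReal (E0 M κ T) := by
  have h1 := Om1_out (g := 0) h hT hM (A := Set.univ) MeasurableSet.univ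
    (fun v _ u _ _ => by rw [mul_zero]; positivity)
  rw [Measure.restrict_univ, neg_zero, Real.exp_zero, one_mul] at h1
  exact h1

lemma small_terms {c κ M ε : ℝ} (hc : 0 < c) (hκ : 0 ≤ κ) (hM : 0 ≤ M) (hε : 0 < ε) :
    ∀ᶠ T : ℝ in atTop, ∀ S : ℝ, c * T ≤ S → S ≤ 2 * (c * T) → 4 ≤ S ∧
      cC ^ 2 * E0 M κ T * Real.exp (2 * T ^ (-(κ + 4))) * T ^ (-(κ + 4)) ≤
        ε * Real.log T ^ 2 / S ^ 2 ∧
      cC ^ 2 * E0 M κ T * (Real.exp (-(S - 2) * T ^ (-(1 / 2) : ℝ)) / (S - 2)) ≤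
        ε * Real.log T ^ 2 / S ^ 2 := by
  obtain ⟨c2, hc2⟩ : ∃ c2, c2 = cC ^ 2 * (4 * M * Real.sqrt (4 * π) * Real.exp 1 * κ) := ⟨_, rfl⟩
  have hc20 : 0 ≤ c2 := by rw [hc2]; positivity
  have t1 : Tendsto (fun T : ℝ => c2 * Real.exp 2 * (4 * c ^ 2) * T ^ (-2 : ℝ)) atTop
      (𝓝 (c2 * Real.exp 2 * (4 * c ^ 2) * 0)) :=
    (tendsto_rpow_neg_atTop (by norm_num)).const_mul _
  rw [mul_zero] at t1
  have t2 : Tendsto (fun T : ℝ => c2 * Real.exp 2 * (4 * c) *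
      ((T ^ (1 / 2 : ℝ)) ^ (2 * (κ + 1)) * Real.exp (-c * T ^ (1 / 2 : ℝ)))) atTop
      (𝓝 (c2 * Real.exp 2 * (4 * c) * 0)) :=
    ((tendsto_rpow_mul_exp_neg_mul_atTop_nhds_zero _ c hc).comp
      (tendsto_rpow_atTop (by norm_num))).const_mul _
  rw [mul_zero] at t2
  filter_upwards [(tendsto_order.1 t1).2 ε hε, (tendsto_order.1 t2).2 ε hε,
    eventually_ge_atTop (4 / c), Real.tendsto_log_atTop.eventually_ge_atTop 1,
    eventually_gt_atTop 1] with T a1 a2 a3 hL hT S hS1 hS2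
  have hTp : 0 < T := by linarith
  rw [div_le_iff₀ hc] at a3
  have hS4 : 4 ≤ S := by linarith
  have hS0 : 0 < S := by linarith
  obtain ⟨L, hLd⟩ : ∃ L, L = Real.log T := ⟨_, rfl⟩
  rw [← hLd] at hL
  have hL0 : 0 < L := by linarith
  have eE : cC ^ 2 * E0 M κ T = c2 * (T ^ κ * L) := by
    rw [E0_eq hT, hc2, hLd]
    ring
  rw [eE, ← hLd]
  have hLL : L ≤ L ^ 2 := by nlinarith
  refine ⟨hS4, ?_, ?_⟩
  · rw [le_div_iff₀ (by positivity)]
    have h1 : Real.exp (2 * T ^ (-(κ + 4))) ≤ Real.exp 2 := by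
      refine Real.exp_le_exp.2 ?_
      have := Real.rpow_le_one_of_one_le_of_nonpos hT.le (show -(κ + 4) ≤ 0 by linarith)
      linarith
    have h2 : S ^ 2 ≤ (2 * (c * T)) ^ 2 := pow_le_pow_left₀ hS0.le hS2 2
    have h3 : T ^ κ * T ^ (-(κ + 4)) * T ^ 2 = T ^ (-2 : ℝ) := by
      rw [← Real.rpow_natCast T 2, ← Real.rpow_add hTp, ← Real.rpow_add hTp]
      congr 1
      push_cast
      ring
    calc c2 * (T ^ κ * L) * Real.exp (2 * T ^ (-(κ + 4))) * T ^ (-(κ + 4)) * S ^ 2 ≤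
        c2 * (T ^ κ * L) * Real.exp 2 * T ^ (-(κ + 4)) * (2 * (c * T)) ^ 2 := by gcongr
      _ = c2 * Real.exp 2 * (4 * c ^ 2) * (T ^ κ * T ^ (-(κ + 4)) * T ^ 2) * L := by ring
      _ = c2 * Real.exp 2 * (4 * c ^ 2) * T ^ (-2 : ℝ) * L := by rw [h3]
      _ ≤ ε * L ^ 2 := mul_le_mul a1.le hLL hL0.le hε.le
  · have hS2' : 0 < S - 2 := by linarith
    rw [le_div_iff₀ (by positivity)]
    have h1 : Real.exp (-(S - 2) * T ^ (-(1 / 2) : ℝ)) ≤ Real.exp 2 *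
        Real.exp (-c * T ^ (1 / 2 : ℝ)) := by
      rw [← Real.exp_add]
      refine Real.exp_le_exp.2 ?_
      have h2 : T * T ^ (-(1 / 2) : ℝ) = T ^ (1 / 2 : ℝ) := by
        rw [← Real.rpow_one_add' hTp.le (by norm_num)]
        norm_num
      have h3 : c * T * T ^ (-(1 / 2) : ℝ) ≤ S * T ^ (-(1 / 2) : ℝ) :=
        mul_le_mul_of_nonneg_right hS1 (by positivity)
      have h4 : T ^ (-(1 / 2) : ℝ) ≤ 1 :=
        Real.rpow_le_one_of_one_le_of_nonpos hT.le (by norm_num)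
      have h5 : c * T * T ^ (-(1 / 2) : ℝ) = c * T ^ (1 / 2 : ℝ) := by rw [mul_assoc, h2]
      linarith
    have h2 : S ^ 2 / (S - 2) ≤ 4 * c * T := by
      rw [div_le_iff₀ hS2']
      have h3 : S ^ 2 ≤ 2 * S * (S - 2) := by nlinarith
      have h4 : 2 * S * (S - 2) ≤ 4 * c * T * (S - 2) :=
        mul_le_mul_of_nonneg_right (by linarith) hS2'.le
      linarith
    have h3 : T ^ κ * T = (T ^ (1 / 2 : ℝ)) ^ (2 * (κ + 1)) := by
      rw [← Real.rpow_mul hTp.le, ← Real.rpow_add_one hTp.ne']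
      congr 1
      ring
    calc c2 * (T ^ κ * L) * (Real.exp (-(S - 2) * T ^ (-(1 / 2) : ℝ)) / (S - 2)) * S ^ 2 =
        c2 * (T ^ κ * L) * Real.exp (-(S - 2) * T ^ (-(1 / 2) : ℝ)) * (S ^ 2 / (S - 2)) := by ring
      _ ≤ c2 * (T ^ κ * L) * (Real.exp 2 * Real.exp (-c * T ^ (1 / 2 : ℝ))) * (4 * c * T) := by
          gcongr
      _ = c2 * Real.exp 2 * (4 * c) * ((T ^ κ * T) * Real.exp (-c * T ^ (1 / 2 : ℝ))) * L := by
          ring
      _ = c2 * Real.exp 2 * (4 * c) * ((T ^ (1 / 2 : ℝ)) ^ (2 * (κ + 1)) *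
          Real.exp (-c * T ^ (1 / 2 : ℝ))) * L := by rw [h3]
      _ ≤ ε * L ^ 2 := mul_le_mul a2.le hLL hL0.le hε.le

lemma exp2 : (1 : ℝ) ≤ Real.sqrt π := by
  rw [Real.one_le_sqrt]
  linarith [Real.pi_gt_three]

/-- the secondary part -/
theorem jf_rough (h : HW) {κ M D : ℝ} {K : ℝ → ℝ} (hK : WK κ M D K) (hM : 0 ≤ M) (hκ : 1 ≤ κ)
    {c : ℝ} (hc : 0 < c) : ∃ C : ℝ, 0 ≤ C ∧ ∀ᶠ T : ℝ in atTop, ∀ S : ℝ, c * T ≤ S →
      S ≤ 2 * (c * T) → JF S (Om1 (kT K T)) ≤ ENNReal.ofReal (C * Real.log T ^ 2 / S ^ 2) := by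
  obtain ⟨G, hG, hw⟩ := rough_wt h hK hM (by linarith) (B := κ + 4) (by linarith)
  refine ⟨4 * c ^ 2 * G + 3 * G + 2, by positivity, ?_⟩
  have t1 : Tendsto (fun T : ℝ => T ^ (1 / 2 : ℝ)) atTop atTop := tendsto_rpow_atTop (by norm_num)
  filter_upwards [hw, small_terms (κ := κ) hc (by linarith) hM one_pos, eventually_gt_atTop 1,
    t1.eventually_ge_atTop 1] with T hw hst hT a1 S hS1 hS2
  have hTp : 0 < T := by linarith
  obtain ⟨hS4, s1, s2⟩ := hst S hS1 hS2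
  have hS0 : 0 < S := by linarith
  have hd0 : T ^ (-(κ + 4)) ≤ 1 / T := by
    rw [one_div, ← Real.rpow_neg_one]
    exact Real.rpow_le_rpow_of_exponent_le hT.le (by linarith)
  have hd1 : 1 / T ≤ T ^ (-(1 / 2) : ℝ) := by
    rw [one_div, ← Real.rpow_neg_one]
    exact Real.rpow_le_rpow_of_exponent_le hT.le (by norm_num)
  have hkey := jf_gen (S := S) (E := E0 M κ T) (G := G * Real.log T ^ 2) (I := G * Real.log T ^ 2)
    (d0 := T ^ (-(κ + 4))) (a := 1 / T) (b := 1 / T) (d1 := T ^ (-(1 / 2) : ℝ))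
    (Ω := Om1 (kT K T)) (by linarith) (E0_nonneg hM (by linarith) hT) (by positivity)
    (by positivity) (by positivity) hd0 le_rfl hd1 (E0_mass hK hM hT)
    (fun δ h1 h2 => hw δ h1 h2) (fun δ h1 h2 => absurd h2 (not_le.2 h1))
  refine hkey.trans (ENNReal.ofReal_le_ofReal ?_)
  obtain ⟨Q, hQ⟩ : ∃ Q, Q = Real.log T ^ 2 / S ^ 2 := ⟨_, rfl⟩
  have hQ0 : 0 ≤ Q := by rw [hQ]; positivity
  have e1 : 1 * Real.log T ^ 2 / S ^ 2 = Q := by rw [hQ]; ring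
  rw [e1] at s1 s2
  have e2 : G * Real.log T ^ 2 / S ^ 2 = G * Q := by rw [hQ]; ring
  have e3 : (4 * c ^ 2 * G + 3 * G + 2) * Real.log T ^ 2 / S ^ 2 =
      (4 * c ^ 2 * G + 3 * G + 2) * Q := by rw [hQ]; ring
  rw [e2, e3]
  have h1 : G * Real.log T ^ 2 * (1 / T) ^ 2 ≤ 4 * c ^ 2 * G * Q := by
    have h2 : (1 / T) ^ 2 ≤ 4 * c ^ 2 * (1 / S ^ 2) := by
      rw [one_div_pow, mul_one_div, div_le_div_iff₀ (by positivity) (by positivity)]
      have := pow_le_pow_left₀ hS0.le hS2 2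
      linarith
    calc G * Real.log T ^ 2 * (1 / T) ^ 2 ≤ G * Real.log T ^ 2 * (4 * c ^ 2 * (1 / S ^ 2)) := by
          gcongr
      _ = _ := by rw [hQ]; ring
  have h2 : G * Q * (2 * Real.exp (-(S / 2) * (1 / T))) ≤ G * Q * 2 := by
    have h3 : Real.exp (-(S / 2) * (1 / T)) ≤ 1 := by
      rw [Real.exp_le_one_iff]
      have : 0 < S / 2 * (1 / T) := by positivity
      linarith
    refine mul_le_mul_of_nonneg_left (by linarith) (by positivity)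
  have e4 : (4 * c ^ 2 * G + 3 * G + 2) * Q = Q + 4 * c ^ 2 * G * Q + G * Q + G * Q * 2 + Q := by
    ring
  rw [e4]
  linarith

/-- **the main part** -/
theorem jf_sharp (h : HW) {κ M D : ℝ} {K : ℝ → ℝ} (hK : WK κ M D K) (hM : 0 ≤ M) (hκ : 1 ≤ κ)
    {c ε : ℝ} (hc : 0 < c) (hε : 0 < ε) : ∀ᶠ T : ℝ in atTop, ∀ S : ℝ, c * T ≤ S →
      S ≤ 2 * (c * T) → JF S (Om0 (kT K T)) ≤
        ENNReal.ofReal (Real.sqrt π * (2 * cC * (∫ α in (0 : ℝ)..1, K α) +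
          (∫ α in (0 : ℝ)..κ, K α) + ε) * Real.log T ^ 2 / S ^ 2) := by
  have hcC := cC_one
  obtain ⟨G, hG, hw⟩ := rough_wt h hK hM (by linarith) (B := κ + 4) (by linarith)
  obtain ⟨I, hI⟩ : ∃ I, I = 2 * cC * (∫ α in (0 : ℝ)..1, K α) + (∫ α in (0 : ℝ)..κ, K α) :=
    ⟨_, rfl⟩
  have i1 : 0 ≤ ∫ α in (0 : ℝ)..1, K α :=
    intervalIntegral.integral_nonneg (by norm_num) fun x _ => hK.nonneg x
  have i2 : 0 ≤ ∫ α in (0 : ℝ)..κ, K α :=
    intervalIntegral.integral_nonneg (by linarith) fun x _ => hK.nonneg x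
  have hI0 : 0 ≤ I := by rw [hI]; positivity
  -- the ends of the main range
  obtain ⟨h0, hh0, hh01, hh02⟩ : ∃ h0 : ℝ, 0 < h0 ∧ h0 ≤ 1 ∧ 4 * c ^ 2 * G * h0 ≤ ε / 5 := by
    refine ⟨min 1 (ε / (20 * (c ^ 2 * G + 1))), lt_min one_pos (by positivity), min_le_left _ _, ?_⟩
    have h1 : min 1 (ε / (20 * (c ^ 2 * G + 1))) ≤ ε / (20 * (c ^ 2 * G + 1)) := min_le_right _ _
    have h2 : 4 * c ^ 2 * G * (ε / (20 * (c ^ 2 * G + 1))) ≤ ε / 5 := by
      have h3 : 4 * c ^ 2 * G * (ε / (20 * (c ^ 2 * G + 1))) =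
          ε / 5 * (c ^ 2 * G / (c ^ 2 * G + 1)) := by
        field_simp
        ring
      rw [h3]
      have h4 : c ^ 2 * G / (c ^ 2 * G + 1) ≤ 1 := by
        rw [div_le_one (by positivity)]
        linarith
      nlinarith
    have h3 : 4 * c ^ 2 * G * min 1 (ε / (20 * (c ^ 2 * G + 1))) ≤
        4 * c ^ 2 * G * (ε / (20 * (c ^ 2 * G + 1))) := mul_le_mul_of_nonneg_left h1 (by positivity)
    linarith
  obtain ⟨h1, hh1, hh12⟩ : ∃ h1 : ℝ, 1 ≤ h1 ∧ 2 * G * Real.exp (-(c / 2) * h1) ≤ ε / 5 := by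
    have t1 : Tendsto (fun x : ℝ => 2 * G * Real.exp (-((c / 2) * x))) atTop (𝓝 (2 * G * 0)) :=
      (Real.tendsto_exp_neg_atTop_nhds_zero.comp
        (tendsto_id.const_mul_atTop (by positivity))).const_mul _
    rw [mul_zero] at t1
    obtain ⟨x, hx, hx1⟩ := (((tendsto_order.1 t1).2 (ε / 5) (by positivity)).and
      (eventually_ge_atTop 1)).exists
    refine ⟨x, hx1, ?_⟩
    rw [neg_mul]
    exact hx.le
  have hsh := sharp_wt h hK hM hκ (h0 := h0) (h1 := h1) hh0 (show 0 < ε / 5 by positivity)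
  rw [← hI] at hsh ⊢
  have t1 : Tendsto (fun T : ℝ => T ^ (1 / 2 : ℝ)) atTop atTop := tendsto_rpow_atTop (by norm_num)
  filter_upwards [hw, hsh, small_terms (κ := κ) hc (by linarith) hM (show 0 < ε / 5 by positivity),
    eventually_gt_atTop 1, t1.eventually_ge_atTop h1, eventually_ge_atTop (1 / h0)]
    with T hw hsh hst hT a1 a2 S hS1 hS2
  have hTp : 0 < T := by linarith
  obtain ⟨hS4, s1, s2⟩ := hst S hS1 hS2
  have hS0 : 0 < S := by linarith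
  have hd0 : T ^ (-(κ + 4)) ≤ h0 / T := by
    rw [div_le_iff₀ hh0] at a2
    have h2 : T ^ (-(κ + 4)) ≤ T ^ (-2 : ℝ) :=
      Real.rpow_le_rpow_of_exponent_le hT.le (by linarith)
    refine h2.trans ?_
    rw [le_div_iff₀ hTp, Real.rpow_neg hTp.le]
    norm_num
    rw [inv_mul_le_iff₀ (by positivity)]
    nlinarith
  have hd1 : h1 / T ≤ T ^ (-(1 / 2) : ℝ) := by
    rw [div_le_iff₀ hTp]
    have h2 : T ^ (-(1 / 2) : ℝ) * T = T ^ (1 / 2 : ℝ) := by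
      rw [← Real.rpow_add_one hTp.ne']
      norm_num
    rw [h2]
    exact a1
  have hkey := jf_gen (S := S) (E := E0 M κ T) (G := G * Real.log T ^ 2)
    (I := Real.sqrt π * (I + ε / 5) * Real.log T ^ 2)
    (d0 := T ^ (-(κ + 4))) (a := h0 / T) (b := h1 / T) (d1 := T ^ (-(1 / 2) : ℝ))
    (Ω := Om0 (kT K T)) (by linarith) (E0_nonneg hM (by linarith) hT) (by positivity)
    (by positivity) (by positivity) hd0 (div_le_div_of_nonneg_right (by linarith) hTp.le) hd1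
    ((lintegral_mono fun v => mul_le_mul_left (Om0_le_Om1 _ _) _).trans (E0_mass hK hM hT))
    (fun δ h1 h2 => (lintegral_mono fun v => mul_le_mul_left (Om0_le_Om1 _ _) _).trans
      (hw δ h1 h2)) (fun δ h1 h2 => hsh δ h1 h2)
  refine hkey.trans (ENNReal.ofReal_le_ofReal ?_)
  obtain ⟨Q, hQ⟩ : ∃ Q, Q = Real.log T ^ 2 / S ^ 2 := ⟨_, rfl⟩
  have hQ0 : 0 ≤ Q := by rw [hQ]; positivity
  have e1 : ε / 5 * Real.log T ^ 2 / S ^ 2 = ε / 5 * Q := by rw [hQ]; ring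
  rw [e1] at s1 s2
  have e2 : G * Real.log T ^ 2 / S ^ 2 = G * Q := by rw [hQ]; ring
  have e3 : Real.sqrt π * (I + ε) * Real.log T ^ 2 / S ^ 2 = Real.sqrt π * (I + ε) * Q := by
    rw [hQ]; ring
  have e5 : Real.sqrt π * (I + ε / 5) * Real.log T ^ 2 / S ^ 2 =
      Real.sqrt π * (I + ε / 5) * Q := by rw [hQ]; ring
  rw [e2, e3, e5]
  have k1 : G * Real.log T ^ 2 * (h0 / T) ^ 2 ≤ ε / 5 * Q := by
    have h2 : (h0 / T) ^ 2 ≤ 4 * c ^ 2 * h0 * (1 / S ^ 2) := by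
      rw [div_pow, mul_one_div, div_le_div_iff₀ (by positivity) (by positivity)]
      have h3 := pow_le_pow_left₀ hS0.le hS2 2
      have h4 : h0 ^ 2 ≤ h0 := by nlinarith
      calc h0 ^ 2 * S ^ 2 ≤ h0 * (2 * (c * T)) ^ 2 := by gcongr
        _ = _ := by ring
    calc G * Real.log T ^ 2 * (h0 / T) ^ 2 ≤ G * Real.log T ^ 2 * (4 * c ^ 2 * h0 * (1 / S ^ 2)) := by
          gcongr
      _ = 4 * c ^ 2 * G * h0 * Q := by rw [hQ]; ring
      _ ≤ _ := mul_le_mul_of_nonneg_right hh02 hQ0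
  have k2 : G * Q * (2 * Real.exp (-(S / 2) * (h1 / T))) ≤ ε / 5 * Q := by
    have h3 : Real.exp (-(S / 2) * (h1 / T)) ≤ Real.exp (-(c / 2) * h1) := by
      refine Real.exp_le_exp.2 ?_
      have h4 : c / 2 * h1 ≤ S / 2 * (h1 / T) := by
        have h5 : c / 2 * h1 = c * T / 2 * (h1 / T) := by field_simp
        rw [h5]
        refine mul_le_mul_of_nonneg_right (by linarith) (by positivity)
      linarith
    calc G * Q * (2 * Real.exp (-(S / 2) * (h1 / T))) ≤ G * Q * (2 * Real.exp (-(c / 2) * h1)) := by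
          gcongr
      _ = (2 * G * Real.exp (-(c / 2) * h1)) * Q := by ring
      _ ≤ _ := mul_le_mul_of_nonneg_right hh12 hQ0
  have k3 : 4 * (ε / 5) * Q ≤ Real.sqrt π * (4 * (ε / 5)) * Q := by
    refine mul_le_mul_of_nonneg_right ?_ hQ0
    have := exp2
    nlinarith
  have e4 : Real.sqrt π * (I + ε) * Q = Real.sqrt π * (I + ε / 5) * Q +
      Real.sqrt π * (4 * (ε / 5)) * Q := by ring
  rw [e4]
  linarith

end Pool.Agent.H7.AC
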