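import Pool.Agent.H7.PS.Lim6

/-! The limit of the pair correlation, from the upper bound for the mixtures. -/

open MeasureTheory Filter Topology Real
open scoped ENNReal ContDiff

namespace Pool.Agent.H7.AC

open H370 TH803TW Pool.Agent.Y744 Pool.Agent.Y744.ANC Pool.Agent.H7.FF Pool.Agent.H7.PS
open Pool.Agent.Results.MP_103a5c_nt.BohrSetPairs

/-- the upper bound for the mixtures -/
def ZU : Prop := ∀ κ : ℝ, 1 ≤ κ → ∃ C : ℝ, 0 ≤ C ∧ ∀ (K : ℝ → ℝ) (M D : ℝ),
    0 ≤ M → WK κ M D K → ∀ c : ℝ, 0 < c → ∀ δ : ℝ, 0 < δ → ∀ᶠ T : ℝ in atTop,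
      ∫⁻ τ in Set.Ioi (0 : ℝ), ENNReal.ofReal (kc c τ) * Zu K T τ ≤
      ENNReal.ofReal (π * Real.sqrt π / 2 * (c * T * Real.log T ^ 2) *
        ((∫ α in (0 : ℝ)..κ, K α) + C * (∫ α in (0 : ℝ)..(1 + δ), K α) + δ))

variable {κ : ℝ} {K : ℝ → ℝ} {g : Ultrafilter ℝ} {B : ℝ → ℝ → ℝ} {C0 : ℝ} {c : ℝ}

lemma z_bd (hU : ZU) (hκ : 1 ≤ κ) (hK : TK κ K) (hpos : ∀ x, 0 ≤ K x)
    (h0 : ∀ x, 0 < x → x < 1 / 2 → K x = 0) {R : ℝ} (hR : 0 < R) : ∃ C1 : ℝ, 0 ≤ C1 ∧
    ∀ᶠ T : ℝ in atTop, ENNReal.ofReal (cz T) * Zu K T R ≤ ENNReal.ofReal C1 := by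
  obtain ⟨M, D, hM, hW⟩ := TK_WK hK hpos h0
  obtain ⟨C, hC, hp⟩ := hU κ hκ
  have hI1 : 0 ≤ ∫ α in (0 : ℝ)..κ, K α :=
    intervalIntegral.integral_nonneg (by linarith) fun x _ => hpos x
  have hI2 : 0 ≤ ∫ α in (0 : ℝ)..(1 + 1), K α :=
    intervalIntegral.integral_nonneg (by norm_num) fun x _ => hpos x
  set I : ℝ := (∫ α in (0 : ℝ)..κ, K α) + C * (∫ α in (0 : ℝ)..(1 + 1), K α) + 1 with hI
  have hI0 : 0 ≤ I := by positivity
  set m : ℝ := 3 * R / ((1 + (R + 1) ^ 2) * (4 + (R + 1) ^ 2)) with hm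
  have hm0 : 0 < m := by positivity
  have hk : ∀ τ, R < τ → τ ≤ R + 1 → m ≤ kc 1 τ := by
    intro τ h1 h2
    have hτ : 0 < τ := hR.trans h1
    rw [kc_eq one_pos, hm]
    rw [div_le_div_iff₀ (by positivity) (by positivity)]
    have h3 : (1 ^ 2 + τ ^ 2) * ((2 * 1) ^ 2 + τ ^ 2) ≤ (1 + (R + 1) ^ 2) * (4 + (R + 1) ^ 2) := by
      have : τ ^ 2 ≤ (R + 1) ^ 2 := by nlinarith
      refine mul_le_mul (by linarith) (by linarith) (by positivity) (by positivity)
    calc 3 * R * ((1 ^ 2 + τ ^ 2) * ((2 * 1) ^ 2 + τ ^ 2)) ≤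
        3 * τ * ((1 + (R + 1) ^ 2) * (4 + (R + 1) ^ 2)) :=
          mul_le_mul (by linarith) h3 (by positivity) (by positivity)
      _ = _ := by ring
  refine ⟨π * I / m, by have := Real.pi_pos; positivity, ?_⟩
  filter_upwards [hp K M D hM hW 1 one_pos 1 one_pos, eventually_gt_atTop 1] with T h1 hT
  have hT0 : 0 < T := by linarith
  have h2 : ENNReal.ofReal m * Zu K T R ≤
      ∫⁻ τ in Set.Ioi (0 : ℝ), ENNReal.ofReal (kc 1 τ) * Zu K T τ := by
    calc ENNReal.ofReal m * Zu K T R = ∫⁻ _ in Set.Ioc R (R + 1),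
        ENNReal.ofReal m * Zu K T R := by
          rw [lintegral_const, Measure.restrict_apply MeasurableSet.univ, Set.univ_inter,
            Real.volume_Ioc]
          simp
      _ ≤ ∫⁻ τ in Set.Ioc R (R + 1), ENNReal.ofReal (kc 1 τ) * Zu K T τ := by
          refine setLIntegral_mono' measurableSet_Ioc fun τ hτ => ?_
          exact mul_le_mul' (ENNReal.ofReal_le_ofReal (hk τ hτ.1 hτ.2)) (Zu_mono hT0 hτ.1.le)
      _ ≤ _ := lintegral_mono_set fun τ hτ => Set.mem_Ioi.2 (hR.trans hτ.1)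
  have h3 := h2.trans h1
  rw [← hI] at h3
  have h4 : ENNReal.ofReal m * (ENNReal.ofReal (cz T) * Zu K T R) ≤
      ENNReal.ofReal m * ENNReal.ofReal (π * I / m) := by
    calc ENNReal.ofReal m * (ENNReal.ofReal (cz T) * Zu K T R) =
        ENNReal.ofReal (cz T) * (ENNReal.ofReal m * Zu K T R) := by ring
      _ ≤ ENNReal.ofReal (cz T) * ENNReal.ofReal (π * Real.sqrt π / 2 *
        (1 * T * Real.log T ^ 2) * I) := by gcongr
      _ = ENNReal.ofReal m * ENNReal.ofReal (π * I / m) := by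
          rw [← ENNReal.ofReal_mul (cz_pos hT).le, ← ENNReal.ofReal_mul hm0.le, ← mul_assoc,
            cz_mul hT, mul_one]
          congr 1
          field_simp
  have hm1 : ENNReal.ofReal m ≠ 0 := by
    rw [Ne, ENNReal.ofReal_eq_zero]
    linarith
  exact (ENNReal.mul_le_mul_iff_right hm1 ENNReal.ofReal_ne_top).1 h4

/-- the upper bound for the mixture, truncated -/
lemma mix_trunc (RH : RiemannHypothesis) (hgt : (g : Filter ℝ) ≤ atTop) (h : LD g B C0)
    (hU : ZU) (hκ : 1 ≤ κ) : ∃ C : ℝ, 0 ≤ C ∧ ∀ K : ℝ → ℝ, TK κ K → (∀ x, 0 ≤ K x) →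
    (∀ x, 0 < x → x < 1 / 2 → K x = 0) → ∀ c : ℝ, 0 < c → ∀ δ : ℝ, 0 < δ → ∀ R : ℝ, 0 < R →
    ∫ τ in (0 : ℝ)..R, kc c τ * Lam (Br B τ) K ≤
      π * c * ((∫ α in (0 : ℝ)..κ, K α) + C * (∫ α in (0 : ℝ)..(1 + δ), K α) + δ) := by
  obtain ⟨C, hC, hp⟩ := hU κ hκ
  refine ⟨C, hC, fun K hK hpos h0 c hc δ hδ R hR => ?_⟩
  obtain ⟨M, D, hM, hW⟩ := TK_WK hK hpos h0
  obtain ⟨C1, hC1, hz⟩ := z_bd hU hκ hK hpos h0 hR
  obtain ⟨T1, hT1⟩ := (hz.and (eventually_gt_atTop 1)).exists_forall_of_atTop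
  have hIa : 0 ≤ ∫ α in (0 : ℝ)..κ, K α :=
    intervalIntegral.integral_nonneg (by linarith) fun x _ => hpos x
  have hIb : 0 ≤ ∫ α in (0 : ℝ)..(1 + δ), K α :=
    intervalIntegral.integral_nonneg (by linarith) fun x _ => hpos x
  set I : ℝ := (∫ α in (0 : ℝ)..κ, K α) + C * (∫ α in (0 : ℝ)..(1 + δ), K α) + δ with hI
  have hI0 : 0 ≤ I := by positivity
  set z : ℝ → ℝ → ℝ := fun T τ => (ENNReal.ofReal (cz T) * Zu K T τ).toReal with hzdef
  have hfin : ∀ T, T1 ≤ T → ∀ τ, τ ≤ R → ENNReal.ofReal (cz T) * Zu K T τ ≤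
      ENNReal.ofReal C1 := by
    intro T hT τ hτ
    have := (hT1 T hT).2
    exact (mul_le_mul_right (Zu_mono (by linarith) hτ) _).trans (hT1 T hT).1
  have hzz : ∀ T, T1 ≤ T → ∀ τ, τ ≤ R → ENNReal.ofReal (z T τ) =
      ENNReal.ofReal (cz T) * Zu K T τ := by
    intro T hT τ hτ
    simp only [hzdef]
    rw [ENNReal.ofReal_toReal (ne_top_of_le_ne_top ENNReal.ofReal_ne_top (hfin T hT τ hτ))]
  have hz0 : ∀ T τ, 0 ≤ z T τ := fun T τ => ENNReal.toReal_nonneg
  have hzm : ∀ T, T1 ≤ T → ∀ a b, a ≤ b → b ≤ R → z T a ≤ z T b := by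
    intro T hT a b hab hb
    have := (hT1 T hT).2
    refine ENNReal.toReal_mono (ne_top_of_le_ne_top ENNReal.ofReal_ne_top (hfin T hT b hb)) ?_
    exact mul_le_mul_right (Zu_mono (by linarith) hab) _
  have hzC : ∀ T, T1 ≤ T → ∀ τ, τ ≤ R → z T τ ≤ C1 := by
    intro T hT τ hτ
    exact ENNReal.toReal_le_of_le_ofReal hC1 (hfin T hT τ hτ)
  set A : ℝ → ℝ → ℝ := fun T τ => z T (min τ R) with hA
  have hAm : ∀ T, T1 ≤ T → Monotone (A T) := fun T hT a b hab =>
    hzm T hT _ _ (min_le_min_right R hab) (min_le_right _ _)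
  have hAb : ∀ T, T1 ≤ T → ∀ y, |A T y| ≤ C1 * (1 + y ^ 2) := by
    intro T hT y
    rw [abs_of_nonneg (hz0 _ _)]
    have h1 := hzC T hT (min y R) (min_le_right _ _)
    show z T (min y R) ≤ _
    nlinarith [sq_nonneg y]
  -- the limit
  have hex : ∀ y, ∃ L, Tendsto (fun T => A T y) (g : Filter ℝ) (𝓝 L) := by
    intro y
    have h2 : ((g.map fun T => A T y : Ultrafilter ℝ) : Filter ℝ) ≤ 𝓟 (Set.Icc 0 C1) := by
      rw [le_principal_iff]
      have h3 : ∀ᶠ T in (g : Filter ℝ), A T y ∈ Set.Icc 0 C1 := by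
        filter_upwards [hgt (eventually_ge_atTop T1)] with T hT
        exact ⟨hz0 _ _, hzC T hT _ (min_le_right _ _)⟩
      exact h3
    obtain ⟨L, _, hL⟩ := isCompact_Icc.ultrafilter_le_nhds _ h2
    exact ⟨L, hL⟩
  choose A' hA'l using hex
  have hA'm : Monotone A' := by
    intro a b hab
    refine le_of_tendsto_of_tendsto (hA'l a) (hA'l b) ?_
    filter_upwards [hgt (eventually_ge_atTop T1)] with T hT using hAm T hT hab
  -- comparison with the pair sums
  have hLA : ∀ τ, 0 < τ → τ ≤ R → Lam (Br B τ) K ≤ A' τ := by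
    intro τ hτ hτR
    have h1 : ∀ ε : ℝ, 0 < ε → Lam (Br B τ) K ≤ (1 + ε) * A' τ + ε := by
      intro ε hε
      refine le_of_tendsto_of_tendsto (Lam_lim RH hgt h hK hτ)
        (((hA'l τ).const_mul (1 + ε)).add_const ε) ?_
      filter_upwards [hgt (zero_lower RH hK (by linarith) hpos h0 hτ hε),
        hgt (eventually_ge_atTop T1)] with T h2 hT
      rw [← hzz T hT τ hτR, ← ENNReal.ofReal_mul (by positivity),
        ← ENNReal.ofReal_add (by have := hz0 T τ; positivity) hε.le] at h2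
      have h3 := (ENNReal.ofReal_le_ofReal_iff (by have := hz0 T τ; positivity)).1 h2
      show _ ≤ (1 + ε) * z T (min τ R) + ε
      rw [min_eq_left hτR]
      exact h3
    have h2 : Tendsto (fun ε : ℝ => (1 + ε) * A' τ + ε) (𝓝[>] 0) (𝓝 ((1 + 0) * A' τ + 0)) :=
      ((by fun_prop : Continuous fun ε : ℝ => (1 + ε) * A' τ + ε).tendsto 0).mono_left
        nhdsWithin_le_nhds
    rw [show (1 + 0) * A' τ + 0 = A' τ by ring] at h2
    exact ge_of_tendsto h2 (eventually_mem_nhdsWithin.mono fun ε hε => h1 ε hε)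
  -- the truncated kernel
  set w : ℝ → ℝ := (Set.Ioc 0 R).indicator (kc c) with hw
  have hwm : Measurable w := (kc_cont hc).measurable.indicator measurableSet_Ioc
  obtain ⟨Mk, hMk⟩ := (isCompact_Icc (a := (0 : ℝ)) (b := R)).exists_bound_of_continuousOn
    (kc_cont hc).continuousOn
  have hMk0 : 0 ≤ Mk := (norm_nonneg _).trans (hMk 0 ⟨le_rfl, hR.le⟩)
  have hwd : ∀ y, |w y| ≤ (Mk * (1 + R ^ 2) ^ 2) / (1 + y ^ 2) ^ 2 := by
    intro y
    by_cases hy : y ∈ Set.Ioc 0 R
    · rw [hw, Set.indicator_of_mem hy]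
      have h1 := hMk y ⟨hy.1.le, hy.2⟩
      rw [Real.norm_eq_abs] at h1
      rw [le_div_iff₀ (by positivity)]
      have h2 : y ^ 2 ≤ R ^ 2 := by nlinarith [hy.1, hy.2]
      gcongr
    · rw [hw, Set.indicator_of_notMem hy, abs_zero]
      positivity
  have hlim := lim_gen hAm hAb hwm hwd hgt hA'm hA'l
  have hup : ∀ᶠ T in (g : Filter ℝ), ∫ y, A T y * w y ≤ π * c * I := by
    filter_upwards [hgt (hp K M D hM hW c hc δ hδ), hgt (eventually_ge_atTop T1)] with T h1 hT
    have hT1' := (hT1 T hT).2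
    have e1 : ∫ y, A T y * w y = ∫ y in Set.Ioc 0 R, z T y * kc c y := by
      rw [← integral_indicator measurableSet_Ioc]
      refine integral_congr_ae (Eventually.of_forall fun y => ?_)
      show A T y * w y = (Set.Ioc 0 R).indicator (fun y => z T y * kc c y) y
      by_cases hy : y ∈ Set.Ioc 0 R
      · rw [hw, Set.indicator_of_mem hy, Set.indicator_of_mem hy]
        show z T (min y R) * _ = _
        rw [min_eq_left hy.2]
      · rw [hw, Set.indicator_of_notMem hy, Set.indicator_of_notMem hy, mul_zero]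
    rw [e1]
    have hnn : 0 ≤ᵐ[volume.restrict (Set.Ioc 0 R)] fun y => z T y * kc c y := by
      rw [EventuallyLE, ae_restrict_iff' measurableSet_Ioc]
      exact Eventually.of_forall fun y hy => mul_nonneg (hz0 _ _) (kc_nonneg hc hy.1.le)
    have hmeas : AEStronglyMeasurable (fun y => z T y * kc c y)
        (volume.restrict (Set.Ioc 0 R)) := by
      have h3 : Measurable fun y => A T y * kc c y :=
        (hAm T hT).measurable.mul (kc_cont hc).measurable
      refine h3.aestronglyMeasurable.congr ?_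
      rw [EventuallyEq, ae_restrict_iff' measurableSet_Ioc]
      refine Eventually.of_forall fun y hy => ?_
      show z T (min y R) * _ = _
      rw [min_eq_left hy.2]
    rw [integral_eq_lintegral_of_nonneg_ae hnn hmeas]
    refine ENNReal.toReal_le_of_le_ofReal (by have := Real.pi_pos; positivity) ?_
    calc ∫⁻ y in Set.Ioc 0 R, ENNReal.ofReal (z T y * kc c y) =
        ∫⁻ y in Set.Ioc 0 R, ENNReal.ofReal (cz T) * (ENNReal.ofReal (kc c y) * Zu K T y) := by
          refine setLIntegral_congr_fun measurableSet_Ioc fun y hy => ?_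
          show ENNReal.ofReal (z T y * kc c y) = _
          rw [ENNReal.ofReal_mul (hz0 _ _), hzz T hT y hy.2]
          ring
      _ ≤ ∫⁻ y in Set.Ioi 0, ENNReal.ofReal (cz T) * (ENNReal.ofReal (kc c y) * Zu K T y) :=
          lintegral_mono_set Set.Ioc_subset_Ioi_self
      _ = ENNReal.ofReal (cz T) * ∫⁻ y in Set.Ioi 0, ENNReal.ofReal (kc c y) * Zu K T y := by
          rw [lintegral_const_mul' _ _ ENNReal.ofReal_ne_top]
      _ ≤ ENNReal.ofReal (cz T) * ENNReal.ofReal (π * Real.sqrt π / 2 *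
          (c * T * Real.log T ^ 2) * I) := by gcongr
      _ = ENNReal.ofReal (π * c * I) := by
          rw [← ENNReal.ofReal_mul (cz_pos hT1').le, ← mul_assoc, cz_mul hT1']
  have h5 := le_of_tendsto hlim hup
  refine le_trans ?_ h5
  have e2 : ∫ y, A' y * w y = ∫ y in (0 : ℝ)..R, kc c y * A' y := by
    rw [intervalIntegral.integral_of_le hR.le, ← integral_indicator measurableSet_Ioc]
    refine integral_congr_ae (Eventually.of_forall fun y => ?_)
    show A' y * w y = (Set.Ioc 0 R).indicator (fun y => kc c y * A' y) y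
    by_cases hy : y ∈ Set.Ioc 0 R
    · rw [hw, Set.indicator_of_mem hy, Set.indicator_of_mem hy, mul_comm]
    · rw [hw, Set.indicator_of_notMem hy, Set.indicator_of_notMem hy, mul_zero]
  rw [e2]
  have hLm : Measurable fun τ => Lam (Br B τ) K := by
    unfold Lam
    refine Measurable.neg ?_
    have h6 : StronglyMeasurable fun p : ℝ × ℝ => Br B p.1 p.2 * dct K p.2 :=
      ((Br_meas h).mul ((dct_cont hK).measurable.comp measurable_snd)).stronglyMeasurable
    exact h6.integral_prod_right.measurable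
  obtain ⟨DL, hDL0, hDL⟩ := Lam_bd h hK
  have hLint : IntegrableOn (fun τ => kc c τ * Lam (Br B τ) K) (Set.Ioi 0) :=
    diff_int hLm hDL hc (by positivity)
  have hA'int : IntervalIntegrable A' volume 0 R := hA'm.intervalIntegrable
  refine intervalIntegral.integral_mono_on_of_le_Ioo hR.le ?_ ?_ fun τ hτ => ?_
  · rw [intervalIntegrable_iff_integrableOn_Ioc_of_le hR.le]
    exact hLint.mono_set Set.Ioc_subset_Ioi_self
  · exact hA'int.continuousOn_mul (kc_cont hc).continuousOn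
  · exact mul_le_mul_of_nonneg_left (hLA τ hτ.1 hτ.2.le) (kc_nonneg hc hτ.1.le)

/-- **the upper bound for the mixture** -/
theorem mix_upper (RH : RiemannHypothesis) (hgt : (g : Filter ℝ) ≤ atTop) (h : LD g B C0)
    (hU : ZU) (hκ : 1 ≤ κ) : ∃ C : ℝ, 0 ≤ C ∧ ∀ K : ℝ → ℝ, TK κ K → (∀ x, 0 ≤ K x) →
    (∀ x, 0 < x → x < 1 / 2 → K x = 0) → ∀ c : ℝ, 0 < c →
    ∫ τ in Set.Ioi (0 : ℝ), kc c τ * Lam (Br B τ) K ≤
      π * c * ((∫ α in (0 : ℝ)..κ, K α) + C * ∫ α in (0 : ℝ)..1, K α) := by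
  obtain ⟨C, hC, hp⟩ := mix_trunc RH hgt h hU hκ
  refine ⟨C, hC, fun K hK hpos h0 c hc => ?_⟩
  have h1 : ∀ δ : ℝ, 0 < δ → ∫ τ in Set.Ioi (0 : ℝ), kc c τ * Lam (Br B τ) K ≤
      π * c * ((∫ α in (0 : ℝ)..κ, K α) + C * (∫ α in (0 : ℝ)..(1 + δ), K α) + δ) := by
    intro δ hδ
    refine le_of_tendsto (intervalIntegral_tendsto_integral_Ioi 0 (Lam_kint h hK hc)
      tendsto_id) ?_
    filter_upwards [eventually_gt_atTop 0] with R hR
    exact hp K hK hpos h0 c hc δ hδ R hR
  have hcont : Continuous fun δ : ℝ => ∫ α in (0 : ℝ)..(1 + δ), K α :=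
    (intervalIntegral.continuous_primitive (fun a b => hK.cont.intervalIntegrable a b) 0).comp (by fun_prop)
  have h2 : Tendsto (fun δ : ℝ => π * c * ((∫ α in (0 : ℝ)..κ, K α) +
      C * (∫ α in (0 : ℝ)..(1 + δ), K α) + δ)) (𝓝[>] 0)
      (𝓝 (π * c * ((∫ α in (0 : ℝ)..κ, K α) + C * (∫ α in (0 : ℝ)..(1 + 0), K α) + 0))) := by
    have hc2 : Continuous fun δ : ℝ => π * c * ((∫ α in (0 : ℝ)..κ, K α) +
      C * (∫ α in (0 : ℝ)..(1 + δ), K α) + δ) :=
      continuous_const.mul (((continuous_const.add (continuous_const.mul hcont))).add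
        continuous_id)
    exact (hc2.tendsto 0).mono_left nhdsWithin_le_nhds
  rw [add_zero, add_zero] at h2
  exact ge_of_tendsto h2 (eventually_mem_nhdsWithin.mono fun δ hδ => h1 δ hδ)

/-- the discrepancy is at most zero -/
lemma Dc_nonpos (RH : RiemannHypothesis) (hgt : (g : Filter ℝ) ≤ atTop) (h : LD g B C0)
    (hU : ZU) (hκ : 1 ≤ κ) (hc : 0 < c) (hK : TK κ K) (hpos : ∀ x, 0 ≤ K x) :
    Dc B c K ≤ 0 := by
  obtain ⟨C, hC, hup⟩ := mix_upper RH hgt h hU hκ
  obtain ⟨M, hM⟩ := hK.hcs.exists_bound_of_continuous hK.cont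
  have hM0 : 0 ≤ M := (norm_nonneg _).trans (hM 0)
  have hpi := Real.pi_pos
  have key : ∀ η : ℝ, 0 < η → η < 1 / 4 → Dc B c K ≤ π * c * (1 + C) * (2 * M) * η := by
    intro η hη hη1
    have hK1 := TK_chi' hK hη hη1
    have hK1' := TK_chi hK η
    have hz := Dc_mont RH hgt h hc hK1 (by linarith) (by linarith)
    have hK2 := TK_sub hK hK1'
    set K2 : ℝ → ℝ := fun α => K α - K α * chi η α with hK2d
    have e : Dc B c K2 = Dc B c K := by
      rw [hK2d, Dc_sub h hc hK hK1', hz, sub_zero]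
    have hK2e : ∀ α, K2 α = K α * (1 - chi η α) := fun α => by
      simp only [hK2d]
      ring
    have hp2 : ∀ x, 0 ≤ K2 x := fun x => by
      rw [hK2e]
      exact mul_nonneg (hpos x) (by linarith [chi_le η x])
    have hM2 : ∀ x, K2 x ≤ M := fun x => by
      rw [hK2e]
      have h1 := hM x
      rw [Real.norm_eq_abs, abs_of_nonneg (hpos x)] at h1
      have := chi_nonneg η x
      nlinarith [hpos x]
    have hz2 : ∀ x, |x| ≤ 1 - 2 * η → K2 x = 0 := fun x hx => by
      rw [hK2e, chi_one hη hη1 hx, sub_self, mul_zero]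
    have h0 : ∀ x, 0 < x → x < 1 / 2 → K2 x = 0 := fun x hx hx2 =>
      hz2 x (by rw [abs_of_pos hx]; linarith)
    have h1 := hup K2 hK2 hp2 h0 c hc
    rw [← Lam_Bm h hK2 hc, half0 hK2 (by linarith)] at h1
    have h2 : ∫ α in (0 : ℝ)..1, K2 α ≤ 2 * M * η := by
      have h3 : IntervalIntegrable K2 volume 0 (1 - 2 * η) := hK2.cont.intervalIntegrable _ _
      have h4 : IntervalIntegrable K2 volume (1 - 2 * η) 1 := hK2.cont.intervalIntegrable _ _
      rw [← intervalIntegral.integral_add_adjacent_intervals h3 h4]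
      have h5 : ∫ α in (0 : ℝ)..(1 - 2 * η), K2 α = 0 := by
        rw [intervalIntegral.integral_congr (g := fun _ => (0 : ℝ))]
        · simp
        · intro x hx
          rw [Set.uIcc_of_le (by linarith)] at hx
          exact hz2 x (by rw [abs_of_nonneg hx.1]; exact hx.2)
      have h6 : ∫ α in (1 - 2 * η)..1, K2 α ≤ ∫ _ in (1 - 2 * η)..1, M :=
        intervalIntegral.integral_mono_on (by linarith) h4 (by simp) fun x _ => hM2 x
      rw [intervalIntegral.integral_const, smul_eq_mul] at h6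
      rw [h5, zero_add]
      linarith
    have h7 : ∫ α, K2 α * (1 - min |α| 1) ≤ 4 * M * η := by
      have hcm : Continuous fun α : ℝ => K2 α * (1 - min |α| 1) := by
        have := hK2.cont
        fun_prop
      have h8 : ∫ α, K2 α * (1 - min |α| 1) = ∫ α in Set.Icc (-1 : ℝ) 1,
          K2 α * (1 - min |α| 1) := by
        symm
        refine setIntegral_eq_integral_of_forall_compl_eq_zero fun x hx => ?_
        have h9 : 1 ≤ |x| := by
          by_contra hcon
          push Not at hcon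
          exact hx (abs_le.1 hcon.le)
        rw [min_eq_right h9, sub_self, mul_zero]
      rw [h8]
      calc ∫ α in Set.Icc (-1 : ℝ) 1, K2 α * (1 - min |α| 1) ≤
          ∫ _ in Set.Icc (-1 : ℝ) 1, M * (2 * η) := by
            refine setIntegral_mono_on hcm.continuousOn.integrableOn_Icc
              continuousOn_const.integrableOn_Icc measurableSet_Icc fun x hx => ?_
            rcases le_or_gt |x| (1 - 2 * η) with hx2 | hx2
            · rw [hz2 x hx2, zero_mul]
              positivity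
            · have h9 : |x| ≤ 1 := abs_le.2 hx
              rw [min_eq_left h9]
              exact mul_le_mul (hM2 x) (by linarith) (by linarith) hM0
        _ = 4 * M * η := by
            rw [setIntegral_const]
            simp
            ring
    have h10 : Lam AG K2 = ∫ α, K2 α * min |α| 1 := by
      rw [Lam_AG hK2, hz2 0 (by simp; linarith), zero_add]
    have h11 : ∫ α, K2 α * (1 - min |α| 1) = (∫ α, K2 α) - Lam AG K2 := by
      rw [h10, ← integral_sub hK2.integrable]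
      · refine integral_congr_ae (Eventually.of_forall fun α => ?_)
        show _ = _
        ring
      · refine (hK2.cont.mul mn_cont).integrable_of_hasCompactSupport ?_
        exact hK2.hcs.mul_right
    rw [← e]
    unfold Dc
    rw [h11] at h7
    have h12 : π * c * ((∫ α, K2 α) / 2 + C * ∫ α in (0 : ℝ)..1, K2 α) ≤
        π * c * ((Lam AG K2 + 4 * M * η) / 2 + C * (2 * M * η)) := by
      have := mul_le_mul_of_nonneg_left h2 hC
      refine mul_le_mul_of_nonneg_left ?_ (by positivity)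
      linarith
    have h13 : π * c * ((Lam AG K2 + 4 * M * η) / 2 + C * (2 * M * η)) =
        π / 2 * c * Lam AG K2 + π * c * (1 + C) * (2 * M) * η := by ring
    linarith
  have hlim : Tendsto (fun η : ℝ => π * c * (1 + C) * (2 * M) * η) (𝓝[>] 0)
      (𝓝 (π * c * (1 + C) * (2 * M) * 0)) :=
    ((by fun_prop : Continuous fun η : ℝ => π * c * (1 + C) * (2 * M) * η).tendsto 0).mono_left
      nhdsWithin_le_nhds
  rw [mul_zero] at hlim
  refine ge_of_tendsto hlim ?_
  filter_upwards [eventually_mem_nhdsWithin, nhdsWithin_le_nhds (Iio_mem_nhds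
    (show (0 : ℝ) < 1 / 4 by norm_num))] with η hη hη1
  exact key η hη hη1

/-- the discrepancy vanishes -/
theorem Dc_zero (RH : RiemannHypothesis) (hgt : (g : Filter ℝ) ≤ atTop) (h : LD g B C0)
    (hU : ZU) (hc : 0 < c) (hK : TK κ K) : Dc B c K = 0 := by
  obtain ⟨φ0, hφ, hφp, hφ1, hφ2, _⟩ := exists_pos2 (κ := 1) one_pos
  obtain ⟨Mp, hMp⟩ := Dc_str RH hgt h hc hφ hφ2
  obtain ⟨δ, hδ, hδ2⟩ := Metric.eventually_nhds_iff.1
    ((hφ.cont.continuousAt (x := 0)).eventually_const_lt (show φ0 0 / 2 < φ0 0 by linarith))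
  -- a long test function dominates
  have hdom : ∀ (κ : ℝ) (K : ℝ → ℝ) (M : ℝ), TK κ K → (∀ x, |K x| ≤ M) → ∀ s : ℝ, 1 ≤ s →
      |κ| / δ < s → ∀ x, |K x| ≤ 2 * M / φ0 0 * str φ0 s x := by
    intro κ K M hK hM s hs1 hs x
    have hs0 : 0 < s := by linarith
    have hM0 : 0 ≤ M := (abs_nonneg _).trans (hM 0)
    rw [str_val φ0 hs0]
    rcases lt_or_ge κ |x| with hx | hx
    · rw [hK.supp x hx, abs_zero]
      have := hφp (s⁻¹ * x)
      positivity
    · have h1 : φ0 0 / 2 < φ0 (s⁻¹ * x) := by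
        refine hδ2 ?_
        rw [Real.dist_eq, sub_zero, abs_mul, abs_of_pos (inv_pos.2 hs0), inv_mul_lt_iff₀ hs0]
        rw [div_lt_iff₀ hδ] at hs
        exact (hx.trans (le_abs_self κ)).trans_lt hs
      calc |K x| ≤ M := hM x
        _ = 2 * M / φ0 0 * (φ0 0 / 2) := by field_simp
        _ ≤ _ := mul_le_mul_of_nonneg_left h1.le (by positivity)
  have hsmall : ∀ (κ : ℝ) (K : ℝ → ℝ), TK κ K → (∀ x, 0 ≤ K x) → Dc B c K = 0 := by
    intro κ K hK hpos
    refine le_antisymm (Dc_nonpos RH hgt h hU (le_max_right κ 1) hc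
      (hK.mono (le_max_left κ 1)) hpos) ?_
    obtain ⟨M, hM⟩ := hK.hcs.exists_bound_of_continuous hK.cont
    have hM0 : 0 ≤ M := (norm_nonneg _).trans (hM 0)
    have h1 : ∀ s : ℝ, 1 ≤ s → |κ| / δ < s → -(2 * M / φ0 0 * Mp / s ^ 2) ≤ Dc B c K := by
      intro s hs1 hs
      have hs0 : 0 < s := by linarith
      have h2 := hdom κ K M hK hM s hs1 hs
      have hA : TK (max (s * 1) κ) fun x => 2 * M / φ0 0 * str φ0 s x :=
        TK_smul ((str_TK hφ hs0).mono (le_max_left _ _)) _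
      have hK' := hK.mono (le_max_right (s * 1) κ)
      have h3 := Dc_nonpos RH hgt h hU (κ := max (s * 1) κ) (by
        rw [mul_one]
        exact hs1.trans (le_max_left _ _)) hc (TK_sub hA hK') (fun x => by
          have := h2 x
          rw [abs_of_nonneg (hpos x)] at this
          linarith)
      rw [Dc_sub h hc hA hK', Dc_smul] at h3
      have h4 := mul_le_mul_of_nonneg_left (hMp s hs0) (show 0 ≤ 2 * M / φ0 0 by positivity)
      have h5 : 2 * M / φ0 0 * -(Mp / s ^ 2) = -(2 * M / φ0 0 * Mp / s ^ 2) := by ring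
      linarith
    have h6 : Tendsto (fun s : ℝ => -(2 * M / φ0 0 * Mp / s ^ 2)) atTop (𝓝 (-0)) :=
      (tendsto_const_nhds.div_atTop (tendsto_pow_atTop two_ne_zero)).neg
    rw [neg_zero] at h6
    refine le_of_tendsto h6 ?_
    filter_upwards [eventually_ge_atTop 1, eventually_gt_atTop (|κ| / δ)] with s hs1 hs
    exact h1 s hs1 hs
  obtain ⟨M, hM⟩ := hK.hcs.exists_bound_of_continuous hK.cont
  have hM0 : 0 ≤ M := (norm_nonneg _).trans (hM 0)
  obtain ⟨s, hs1, hs⟩ : ∃ s : ℝ, 1 ≤ s ∧ |κ| / δ < s :=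
    ⟨max 1 (|κ| / δ + 1), le_max_left _ _, lt_of_lt_of_le (by linarith) (le_max_right _ _)⟩
  have hs0 : 0 < s := by linarith
  have h2 := hdom κ K M hK hM s hs1 hs
  have hA : TK (max (s * 1) κ) fun x => 2 * M / φ0 0 * str φ0 s x :=
    TK_smul ((str_TK hφ hs0).mono (le_max_left _ _)) _
  have hK' := hK.mono (le_max_right (s * 1) κ)
  have h3 := hsmall _ _ hA (fun x => (abs_nonneg _).trans (h2 x))
  have h4 := hsmall _ _ (TK_sub hA hK') (fun x => by
    have := (le_abs_self _).trans (h2 x)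
    linarith)
  rw [Dc_sub h hc hA hK', h3] at h4
  linarith

lemma Bm_eq (RH : RiemannHypothesis) (hgt : (g : Filter ℝ) ≤ atTop) (h : LD g B C0)
    (hU : ZU) (hc : 0 < c) (y : ℝ) : Bm B c y = AG y * (π / 2 * c) := by
  have hpi := Real.pi_pos
  have hp : 0 < π / 2 * c := by positivity
  have h1 := rigid_eq (A' := fun y => (π / 2 * c)⁻¹ * Bm B c y) (C0 := C0)
    (fun a b hab => mul_le_mul_of_nonneg_left (Bm_mono h hc hab) (inv_nonneg.2 hp.le))
    (fun y hy => by
      show (π / 2 * c)⁻¹ * Bm B c y = 0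
      rw [Bm_neg h hy, mul_zero])
    (fun y => by
      show |(π / 2 * c)⁻¹ * Bm B c y| ≤ _
      rw [abs_mul, abs_of_pos (inv_pos.2 hp), inv_mul_le_iff₀ hp]
      refine (Bm_bd h hc y).trans (le_of_eq ?_)
      ring)
    (by
      show 1 ≤ (π / 2 * c)⁻¹ * Bm B c 0
      rw [← div_eq_inv_mul, one_le_div hp]
      exact Bm_ge h hc le_rfl)
    (fun κ K hK => by
      have h2 := Dc_zero RH hgt h hU hc hK
      unfold Dc at h2
      have h3 : Lam (fun y => (π / 2 * c)⁻¹ * Bm B c y) K = (π / 2 * c)⁻¹ * Lam (Bm B c) K := by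
        unfold Lam
        rw [mul_neg, ← integral_const_mul]
        congr 1
        refine integral_congr_ae (Eventually.of_forall fun y => ?_)
        show _ = _
        ring
      rw [h3, sub_eq_zero.1 h2, ← mul_assoc, inv_mul_cancel₀ hp.ne', one_mul]) y
  rw [← h1]
  field_simp

lemma Br_eq (RH : RiemannHypothesis) (hgt : (g : Filter ℝ) ≤ atTop) (h : LD g B C0)
    (hU : ZU) {τ : ℝ} (hτ : 0 < τ) (y : ℝ) : Br B τ y = AG y * τ := by
  refine kc_unique_mono (B := fun τ => Br B τ y) (Br_mono2 h y) (C := C0 * (1 + y ^ 2))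
    (fun τ hτ => (Br_bd h hτ y).trans (le_of_eq (by ring))) (fun c hc => ?_) hτ
  rw [kc_mass hc]
  exact Bm_eq RH hgt h hU hc y

lemma B_eq (RH : RiemannHypothesis) (hgt : (g : Filter ℝ) ≤ atTop) (h : LD g B C0)
    (hU : ZU) (y : ℝ) : B 1 y = AG y := by
  have h1 : B 1 y ≤ AG y := by
    have := Br_le h 1 y
    rwa [Br_eq RH hgt h hU one_pos, mul_one] at this
  rcases lt_trichotomy y 0 with hy | rfl | hy
  · rw [h.neg 1 y hy]
    unfold AG
    rw [if_pos hy]
  · refine le_antisymm h1 ?_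
    rw [AG_zero]
    exact h.diag 1 0 one_pos le_rfl
  · refine le_antisymm h1 ?_
    have h2 : ∀ x, x < y → AG x ≤ B 1 y := by
      intro x hx
      have h3 := (h.mono1 1).rightLim_le hx
      have h4 : Function.rightLim (B 1) x = AG x := by
        have := Br_eq RH hgt h hU one_pos x
        rwa [mul_one] at this
      rwa [h4] at h3
    have h5 : Tendsto AG (𝓝[<] y) (𝓝 (AG y)) := by
      have h6 : Tendsto (fun x => 1 + 2 * gp x) (𝓝[<] y) (𝓝 (1 + 2 * gp y)) := by
        have hgc : Continuous gp := by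
          unfold gp
          exact intervalIntegral.continuous_primitive
            (fun a b => gd_cont.intervalIntegrable a b) 0
        exact (continuous_const.add (continuous_const.mul hgc)).continuousAt.tendsto.mono_left
          nhdsWithin_le_nhds
      rw [AG_eq hy]
      refine h6.congr' ?_
      filter_upwards [nhdsWithin_le_nhds (Ioi_mem_nhds hy)] with x hx
      rw [AG_eq hx]
    exact le_of_tendsto h5 (eventually_mem_nhdsWithin.mono fun x hx => h2 x hx)

/-- **the limits of the counting functions** -/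
theorem Aa_limit (RH : RiemannHypothesis) (hU : ZU) (y : ℝ) :
    Tendsto (fun T => Aa T y) atTop (𝓝 (AG y)) := by
  rw [tendsto_iff_ultrafilter]
  intro g hg
  obtain ⟨B, C0, h⟩ := exists_LD RH g hg
  rw [← B_eq RH hg h hU y]
  have := h.lim 1 y
  refine this.congr fun T => ?_
  unfold BB Aa PC
  rw [one_mul]

end Pool.Agent.H7.AC
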