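import Pool.Agent.H7.AC.Rs

/-! The scales below `T`. -/

open MeasureTheory Filter Topology Real
open scoped ENNReal

namespace Pool.Agent.H7.AC

open Pool.Agent.H7.PS Pool.Agent.H7.LH

/-- the normalised Chebyshev function -/
noncomputable def hh (w : ℝ) : ℝ := Real.exp (-w) * Chebyshev.psi (Real.exp w)

lemma hh_nonneg (w : ℝ) : 0 ≤ hh w := mul_nonneg (Real.exp_pos _).le (Chebyshev.psi_nonneg _)

lemma hh_le (w : ℝ) : hh w ≤ cC := by
  have h1 : Chebyshev.psi (Real.exp w) ≤ cC * Real.exp w :=
    Chebyshev.psi_le_const_mul_self (Real.exp_pos w).le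
  have h2 := mul_le_mul_of_nonneg_left h1 (Real.exp_pos (-w)).le
  have h3 : Real.exp (-w) * (cC * Real.exp w) = cC := by
    rw [mul_left_comm, ← Real.exp_add, neg_add_cancel, Real.exp_zero, mul_one]
  unfold hh
  linarith

lemma psiexp_int (d a b : ℝ) : IntervalIntegrable (fun v => Chebyshev.psi (Real.exp (v + d)))
    volume a b := by
  have : Monotone fun v : ℝ => Chebyshev.psi (Real.exp (v + d)) := fun x y hxy =>
    Chebyshev.psi_mono (Real.exp_le_exp.2 (by linarith))
  exact this.intervalIntegrable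

lemma hh_int (a b : ℝ) : IntervalIntegrable hh volume a b := by
  have h := (psiexp_int 0 a b).continuousOn_mul (g := fun v => Real.exp (-v))
    (by fun_prop)
  simp only [add_zero] at h
  exact h

lemma hh_le_int {a b : ℝ} (hab : a ≤ b) : ∫ w in a..b, hh w ≤ cC * (b - a) := by
  have h1 : ∫ w in a..b, hh w ≤ ∫ _ in a..b, cC :=
    intervalIntegral.integral_mono_on hab (hh_int a b) (by simp) fun w _ => hh_le w
  rw [intervalIntegral.integral_const, smul_eq_mul] at h1
  linarith

/-- the number of the primes in the short intervals -/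
lemma gap_int {a b d : ℝ} (hab : a ≤ b) (hd : 0 ≤ d) :
    ∫ v in a..b, Real.exp (-v) * (Chebyshev.psi (Real.exp (v + d)) - Chebyshev.psi (Real.exp v)) ≤
      (Real.exp d - 1) * (cC * (b - a)) + cC * d := by
  have e1 : ∀ v : ℝ, Real.exp (-v) * (Chebyshev.psi (Real.exp (v + d)) -
      Chebyshev.psi (Real.exp v)) = Real.exp d * hh (v + d) - hh v := by
    intro v
    unfold hh
    have : Real.exp d * (Real.exp (-(v + d)) * Chebyshev.psi (Real.exp (v + d))) =
        Real.exp (-v) * Chebyshev.psi (Real.exp (v + d)) := by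
      rw [← mul_assoc, ← Real.exp_add]
      congr 2
      ring
    rw [this]
    ring
  simp_rw [e1]
  have i1 : IntervalIntegrable (fun v => Real.exp d * hh (v + d)) volume a b := by
    refine IntervalIntegrable.const_mul ?_ _
    have h := (hh_int (a + d) (b + d)).comp_add_right d
    simpa using h
  rw [intervalIntegral.integral_sub i1 (hh_int _ _), intervalIntegral.integral_const_mul,
    intervalIntegral.integral_comp_add_right hh d]
  have h1 : ∫ w in a..b, hh w = (∫ w in a..(a + d), hh w) + ∫ w in (a + d)..b, hh w :=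
    (intervalIntegral.integral_add_adjacent_intervals (hh_int _ _) (hh_int _ _)).symm
  have h2 : ∫ w in (a + d)..(b + d), hh w = (∫ w in (a + d)..b, hh w) + ∫ w in b..(b + d), hh w :=
    (intervalIntegral.integral_add_adjacent_intervals (hh_int _ _) (hh_int _ _)).symm
  have h3 : 0 ≤ ∫ w in a..(a + d), hh w :=
    intervalIntegral.integral_nonneg (by linarith) fun w _ => hh_nonneg w
  have h4 := hh_le_int (a := b) (b := b + d) (by linarith)
  have h5 := hh_le_int (a := a + d) (b := b + d) (by linarith)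
  have h6 : 0 ≤ Real.exp d - 1 := by
    have := Real.one_le_exp hd
    linarith
  have h7 := mul_le_mul_of_nonneg_left h5 h6
  have e2 : Real.exp d * ∫ w in (a + d)..(b + d), hh w = (Real.exp d - 1) *
      (∫ w in (a + d)..(b + d), hh w) + ∫ w in (a + d)..(b + d), hh w := by ring
  have e3 : b + d - (a + d) = b - a := by ring
  rw [e3] at h7
  rw [e2]
  have e4 : b + d - b = d := by ring
  rw [e4] at h4
  linarith

/-- at most one integer -/
lemma one_gap {a H : ℝ} (ha : 0 ≤ a) (hH1 : H ≤ 1) :
    Chebyshev.psi (a + H) - Chebyshev.psi a ≤ Real.log (a + 1) := by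
  have h2 : Chebyshev.psi (a + H) ≤ Chebyshev.psi (⌊a⌋₊ + 1 : ℕ) := by
    rw [Chebyshev.psi_eq_psi_coe_floor]
    refine Chebyshev.psi_mono ?_
    have h3 : ⌊a + H⌋₊ ≤ ⌊a⌋₊ + 1 := by
      calc ⌊a + H⌋₊ ≤ ⌊a + 1⌋₊ := Nat.floor_mono (by linarith)
        _ = ⌊a⌋₊ + 1 := Nat.floor_add_one ha
    exact_mod_cast h3
  have h4 : Chebyshev.psi (⌊a⌋₊ + 1 : ℕ) = Chebyshev.psi a +
      ArithmeticFunction.vonMangoldt (⌊a⌋₊ + 1) := by
    rw [Chebyshev.psi_eq_psi_coe_floor a]
    unfold Chebyshev.psi
    rw [Nat.floor_natCast, Nat.floor_natCast, Finset.sum_Ioc_succ_top (Nat.zero_le _)]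
  have h5 : ArithmeticFunction.vonMangoldt (⌊a⌋₊ + 1) ≤ Real.log (a + 1) := by
    refine ArithmeticFunction.vonMangoldt_le_log.trans ?_
    refine Real.log_le_log (by positivity) ?_
    push_cast
    have := Nat.floor_le ha
    linarith
  linarith

theorem near : WB (2 * cC) 0 1 := by
  intro x y hx hxy hy ε hε
  have hc := cC_one
  have t1 := Real.tendsto_log_atTop.eventually_ge_atTop (2 / ε + 1 / (cC * ε) + 1)
  filter_upwards [t1, eventually_ge_atTop 2] with T ht hT
  have hT0 : 0 < T := by linarith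
  have hT1 : 1 < T := by linarith
  have hL : 0 < Real.log T := Real.log_pos hT1
  obtain ⟨L, hLd⟩ : ∃ L, L = Real.log T := ⟨_, rfl⟩
  obtain ⟨d, hd⟩ : ∃ d, d = Real.log (1 + 1 / T) := ⟨_, rfl⟩
  have hexpL : Real.exp L = T := by rw [hLd, Real.exp_log hT0]
  have hexpd : Real.exp d = 1 + 1 / T := by rw [hd, Real.exp_log (by positivity)]
  have hd0 : 0 < d := by
    rw [hd]
    exact Real.log_pos (by
      have : 0 < 1 / T := by positivity
      linarith)
  have hd1 : d ≤ 1 / T := by
    have := Real.add_one_le_exp d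
    rw [hexpd] at this
    linarith
  unfold Wn
  rw [← hLd, ← hd]
  rw [← hLd] at hL ht
  have hxyL : x * L ≤ y * L := mul_le_mul_of_nonneg_right hxy.le hL.le
  -- pointwise
  have hlog : Real.log (T + 1) ≤ 2 * L := by
    have h1 : T + 1 ≤ T ^ 2 := by nlinarith
    calc Real.log (T + 1) ≤ Real.log (T ^ 2) := Real.log_le_log (by linarith) h1
      _ = 2 * L := by
          rw [Real.log_pow, hLd]
          norm_num
  have hpt : ∀ v ∈ Set.Ioc (x * L) (y * L), qd (v, d) ≤ ENNReal.ofReal (2 * L *
      (Real.exp (-v) * (Chebyshev.psi (Real.exp (v + d)) - Chebyshev.psi (Real.exp v))) +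
        Real.exp v * (1 / T) ^ 2) := by
    intro v hv
    have hvL : v ≤ L := by
      have : y * L ≤ 1 * L := mul_le_mul_of_nonneg_right hy hL.le
      linarith [hv.2]
    have hev : Real.exp v ≤ T := by
      rw [← hexpL]
      exact Real.exp_le_exp.2 hvL
    have hev0 := Real.exp_pos v
    have e1 : Real.exp (v + d) = Real.exp v + Real.exp v / T := by
      rw [Real.exp_add, hexpd]
      ring
    have hH : Real.exp v / T ≤ 1 := by
      rw [div_le_one hT0]
      exact hev
    have h1 := one_gap (a := Real.exp v) (H := Real.exp v / T) hev0.le hH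
    have h2 : Real.log (Real.exp v + 1) ≤ 2 * L :=
      (Real.log_le_log (by linarith) (by linarith)).trans hlog
    unfold qd dn
    show ENNReal.ofReal (Real.exp (-v) * (Chebyshev.psi (Real.exp (v + d)) -
      Chebyshev.psi (Real.exp v) - (Real.exp (v + d) - Real.exp v)) ^ 2) ≤ _
    refine ENNReal.ofReal_le_ofReal ?_
    have hmono : 0 ≤ Chebyshev.psi (Real.exp (v + d)) - Chebyshev.psi (Real.exp v) :=
      sub_nonneg.2 (Chebyshev.psi_mono (Real.exp_le_exp.2 (by linarith)))
    rw [← e1] at h1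
    obtain ⟨g, hg⟩ : ∃ g, g = Chebyshev.psi (Real.exp (v + d)) - Chebyshev.psi (Real.exp v) :=
      ⟨_, rfl⟩
    rw [← hg] at h1 hmono ⊢
    have e2 : Real.exp (v + d) - Real.exp v = Real.exp v * (1 / T) := by
      rw [e1]
      ring
    rw [e2]
    obtain ⟨q, hq⟩ : ∃ q, q = Real.exp v * (1 / T) := ⟨_, rfl⟩
    have hq0 : 0 ≤ q := by rw [hq]; positivity
    have h3 : (g - q) ^ 2 ≤ 2 * L * g + q ^ 2 := by
      have h4 : g * g ≤ 2 * L * g := mul_le_mul_of_nonneg_right (h1.trans h2) hmono
      have h5 : 0 ≤ g * q := mul_nonneg hmono hq0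
      nlinarith
    rw [← hq]
    have h6 := mul_le_mul_of_nonneg_left h3 (Real.exp_pos (-v)).le
    refine h6.trans (le_of_eq ?_)
    have e3 : Real.exp (-v) * q ^ 2 = Real.exp v * (1 / T) ^ 2 := by
      rw [hq, mul_pow, Real.exp_neg]
      field_simp
    rw [mul_add, e3]
    ring
  have hi1 : IntervalIntegrable (fun v => Real.exp (-v) *
      (Chebyshev.psi (Real.exp (v + d)) - Chebyshev.psi (Real.exp v))) volume (x * L) (y * L) := by
    have h0 : IntervalIntegrable (fun v => Chebyshev.psi (Real.exp v)) volume (x * L) (y * L) := by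
      simpa only [add_zero] using psiexp_int 0 (x * L) (y * L)
    exact ((psiexp_int d _ _).sub h0).continuousOn_mul (g := fun v => Real.exp (-v)) (by fun_prop)
  have hi2 : IntervalIntegrable (fun v => Real.exp v * (1 / T) ^ 2) volume (x * L) (y * L) :=
    Continuous.intervalIntegrable (by fun_prop) _ _
  have hi3 : IntervalIntegrable (fun v => 2 * L *
      (Real.exp (-v) * (Chebyshev.psi (Real.exp (v + d)) - Chebyshev.psi (Real.exp v))) +
        Real.exp v * (1 / T) ^ 2) volume (x * L) (y * L) := (hi1.const_mul _).add hi2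
  refine (setLIntegral_mono' measurableSet_Ioc hpt).trans ?_
  rw [← ofReal_integral_eq_lintegral_ofReal
    ((intervalIntegrable_iff_integrableOn_Ioc_of_le hxyL).1 hi3) (Eventually.of_forall fun v => ?_),
    ← intervalIntegral.integral_of_le hxyL]
  swap
  · have hmono : 0 ≤ Chebyshev.psi (Real.exp (v + d)) - Chebyshev.psi (Real.exp v) :=
      sub_nonneg.2 (Chebyshev.psi_mono (Real.exp_le_exp.2 (by linarith)))
    show 0 ≤ _
    positivity
  refine ENNReal.ofReal_le_ofReal ?_
  rw [intervalIntegral.integral_add (hi1.const_mul _) hi2, intervalIntegral.integral_const_mul,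
    intervalIntegral.integral_mul_const, integral_exp]
  have h1 := gap_int (d := d) hxyL hd0.le
  have h2 : Real.exp d - 1 = 1 / T := by rw [hexpd]; ring
  rw [h2] at h1
  have h3 : (Real.exp (y * L) - Real.exp (x * L)) * (1 / T) ^ 2 ≤ 1 / T := by
    have h4 : Real.exp (y * L) ≤ T := by
      calc Real.exp (y * L) ≤ Real.exp L := Real.exp_le_exp.2 (by nlinarith)
        _ = T := hexpL
    have h5 := Real.exp_pos (x * L)
    have h6 : Real.exp (y * L) - Real.exp (x * L) ≤ T := by linarith
    calc (Real.exp (y * L) - Real.exp (x * L)) * (1 / T) ^ 2 ≤ T * (1 / T) ^ 2 := by gcongr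
      _ = 1 / T := by field_simp
  have h7 : cC * d ≤ cC * (1 / T) := mul_le_mul_of_nonneg_left hd1 (by linarith)
  have h8 : 2 * L * (∫ v in (x * L)..(y * L), Real.exp (-v) *
      (Chebyshev.psi (Real.exp (v + d)) - Chebyshev.psi (Real.exp v))) ≤
      2 * L * (1 / T * (cC * (y * L - x * L)) + cC * (1 / T)) :=
    mul_le_mul_of_nonneg_left (by linarith) (by linarith)
  refine (add_le_add h8 h3).trans ?_
  have h9 : 2 * cC * (y - x + ε) * (L ^ 2 / T) - (2 * L * (1 / T * (cC * (y * L - x * L)) +
      cC * (1 / T)) + 1 / T) = (2 * cC * ε * L ^ 2 - 2 * cC * L - 1) / T := by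
    field_simp
    ring
  have h10 : 0 ≤ 2 * cC * ε * L ^ 2 - 2 * cC * L - 1 := by
    have hc0 : 0 < cC := by linarith
    have g1 : 2 / ε + 1 / (cC * ε) + 1 ≤ L := ht
    have g2 : (2 / ε + 1 / (cC * ε) + 1) * (cC * ε) = 2 * cC + 1 + cC * ε := by
      field_simp
    have g3 : 2 * cC + 1 + cC * ε ≤ L * (cC * ε) := by
      rw [← g2]
      exact mul_le_mul_of_nonneg_right g1 (by positivity)
    have g4 : 1 ≤ L := by
      have : 0 ≤ 2 / ε + 1 / (cC * ε) := by positivity
      linarith
    have g5 : 0 ≤ cC * ε := by positivity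
    nlinarith
  have h11 : 0 ≤ (2 * cC * ε * L ^ 2 - 2 * cC * L - 1) / T := div_nonneg h10 hT0.le
  linarith

end Pool.Agent.H7.AC
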