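import Pool.Agent.H7.AC.Gen

/-! The bounds in the different ranges. -/

open MeasureTheory Filter Topology Real
open scoped ENNReal

namespace Pool.Agent.H7.AC

open Pool.Agent.H7.PS Pool.Agent.H7.LH

/-- the hypothesis on the windows -/
def HW : Prop := ∀ b : ℝ, 1 < b → WB 1 1 b

/-- the height which belongs to the length `δ` -/
noncomputable def Th (δ : ℝ) : ℝ := 1 / (Real.exp δ - 1)

lemma Th_log {δ : ℝ} (hδ : 0 < δ) : Real.log (1 + 1 / Th δ) = δ := by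
  have h : 0 < Real.exp δ - 1 := sub_pos.2 (Real.one_lt_exp_iff.2 hδ)
  unfold Th
  rw [one_div_one_div, add_sub_cancel, Real.log_exp]

lemma Th_bd {δ : ℝ} (hδ : 0 < δ) (hδ1 : δ ≤ 1) : 0 < Th δ ∧ Th δ ≤ 1 / δ ∧
    1 / (δ * (1 + δ)) ≤ Th δ ∧ 1 / Th δ ≤ δ * (1 + δ) := by
  have h1 : δ ≤ Real.exp δ - 1 := by
    have := Real.add_one_le_exp δ
    linarith
  have h2 : Real.exp δ - 1 ≤ δ * (1 + δ) := by
    have h3 := Real.abs_exp_sub_one_sub_id_le (x := δ) (by rwa [abs_of_pos hδ])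
    have h4 := (le_abs_self _).trans h3
    nlinarith
  have h0 : 0 < Real.exp δ - 1 := by linarith
  unfold Th
  refine ⟨by positivity, one_div_le_one_div_of_le hδ h1, one_div_le_one_div_of_le h0 h2, ?_⟩
  rw [one_div_one_div]
  exact h2

lemma Wn_split (b T : ℝ) : Wn 0 b T ≤ Wn 0 1 T + Wn 1 b T := by
  unfold Wn
  refine (lintegral_mono_set ?_).trans (lintegral_union_le _ _ _)
  intro v hv
  by_cases h : v ≤ 1 * Real.log T
  · exact Or.inl ⟨hv.1, h⟩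
  · exact Or.inr ⟨not_le.1 h, hv.2⟩

lemma rough_win (h : HW) {b : ℝ} (hb : 1 < b) : ∃ C : ℝ, 0 ≤ C ∧ ∀ᶠ T : ℝ in atTop,
    Wn 0 b T ≤ ENNReal.ofReal (C * (Real.log T ^ 2 / T)) := by
  have hc := cC_one
  refine ⟨2 * cC * (1 - 0 + 1) + 1 * (b - 1 + 1), by nlinarith, ?_⟩
  filter_upwards [near 0 1 le_rfl one_pos le_rfl 1 one_pos, h b hb 1 b le_rfl hb le_rfl 1 one_pos,
    eventually_gt_atTop 1] with T h1 h2 hT
  have hL : 0 < Real.log T := Real.log_pos hT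
  refine (Wn_split b T).trans ((add_le_add h1 h2).trans (le_of_eq ?_))
  rw [← ENNReal.ofReal_add (by positivity) (by
    have : 0 ≤ b - 1 := by linarith
    positivity)]
  congr 1
  ring

/-- the rough bound for all lengths -/
lemma rough_all (h : HW) {κ B : ℝ} (hκ : 0 ≤ κ) (hB : 1 ≤ B) : ∃ G : ℝ, 0 ≤ G ∧
    ∀ᶠ T : ℝ in atTop, ∀ δ : ℝ, T ^ (-B) < δ → δ ≤ T ^ (-(1 / 2) : ℝ) →
      ∫⁻ v in Set.Ioc 0 ((κ + 1) * Real.log T), qd (v, δ) ≤
        ENNReal.ofReal (G * Real.log T ^ 2 * δ) := by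
  obtain ⟨C, hC, hw⟩ := rough_win h (b := 3 * (κ + 1)) (by linarith)
  obtain ⟨T0, hT0⟩ := (hw.and (eventually_gt_atTop 1)).exists_forall_of_atTop
  refine ⟨2 * C * B ^ 2, by positivity, ?_⟩
  have t1 : Tendsto (fun T : ℝ => T ^ (1 / 3 : ℝ)) atTop atTop := tendsto_rpow_atTop (by norm_num)
  have t2 : Tendsto (fun T : ℝ => T ^ (1 / 6 : ℝ)) atTop atTop := tendsto_rpow_atTop (by norm_num)
  filter_upwards [t1.eventually_ge_atTop T0, t2.eventually_ge_atTop 2, eventually_gt_atTop 1]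
    with T h1 h2 hT δ hδ1 hδ2
  have hTp : 0 < T := by linarith
  have hL : 0 < Real.log T := Real.log_pos hT
  have hδ0 : 0 < δ := lt_trans (by positivity) hδ1
  have hδl : δ ≤ 1 := hδ2.trans (Real.rpow_le_one_of_one_le_of_nonpos hT.le (by norm_num))
  obtain ⟨b1, b2, b3, b4⟩ := Th_bd hδ0 hδl
  obtain ⟨T', hT'⟩ : ∃ T', T' = Th δ := ⟨_, rfl⟩
  have elog : Real.log (1 + 1 / T') = δ := by rw [hT', Th_log hδ0]
  rw [← hT'] at b1 b2 b3 b4
  have hlow : T ^ (1 / 3 : ℝ) ≤ T' := by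
    refine le_trans ?_ b3
    rw [le_div_iff₀ (by positivity)]
    calc T ^ (1 / 3 : ℝ) * (δ * (1 + δ)) ≤ T ^ (1 / 3 : ℝ) * (T ^ (-(1 / 2) : ℝ) * 2) := by
          gcongr
          linarith
      _ = 2 * (T ^ (1 / 3 : ℝ) * T ^ (-(1 / 2) : ℝ)) := by ring
      _ = 2 * T ^ (-(1 / 6) : ℝ) := by
          rw [← Real.rpow_add hTp]
          norm_num
      _ ≤ T ^ (1 / 6 : ℝ) * T ^ (-(1 / 6) : ℝ) := by gcongr
      _ = 1 := by
          rw [← Real.rpow_add hTp]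
          norm_num
  have hhigh : T' ≤ T ^ B := by
    refine b2.trans ?_
    rw [div_le_iff₀ hδ0]
    calc (1 : ℝ) = T ^ B * T ^ (-B) := by
          rw [← Real.rpow_add hTp]
          norm_num
      _ ≤ T ^ B * δ := by gcongr
  obtain ⟨h3, h4⟩ := hT0 T' (h1.trans hlow)
  have hL'1 : Real.log T / 3 ≤ Real.log T' := by
    have := Real.log_le_log (by positivity) hlow
    rw [Real.log_rpow hTp] at this
    linarith
  have hL'2 : Real.log T' ≤ B * Real.log T := by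
    have := Real.log_le_log b1 hhigh
    rwa [Real.log_rpow hTp] at this
  have hL'0 : 0 < Real.log T' := by linarith
  calc ∫⁻ v in Set.Ioc 0 ((κ + 1) * Real.log T), qd (v, δ) ≤ Wn 0 (3 * (κ + 1)) T' := by
        unfold Wn
        rw [elog]
        refine lintegral_mono_set fun v hv => ⟨by rw [zero_mul]; exact hv.1, hv.2.trans ?_⟩
        nlinarith
    _ ≤ ENNReal.ofReal (C * (Real.log T' ^ 2 / T')) := h3
    _ ≤ _ := by
        refine ENNReal.ofReal_le_ofReal ?_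
        have h5 : Real.log T' ^ 2 ≤ (B * Real.log T) ^ 2 := pow_le_pow_left₀ hL'0.le hL'2 2
        have h6 : 1 / T' ≤ 2 * δ := b4.trans (by nlinarith)
        calc C * (Real.log T' ^ 2 / T') = C * (Real.log T' ^ 2 * (1 / T')) := by ring
          _ ≤ C * ((B * Real.log T) ^ 2 * (2 * δ)) := by gcongr
          _ = _ := by ring

/-- the parts outside -/
lemma out_small {κ M D B ε : ℝ} {K : ℝ → ℝ} (h : WK κ M D K) (hM : 0 ≤ M) (hκ : 0 ≤ κ)
    (hB : 0 ≤ B) (hε : 0 < ε) : ∀ᶠ T : ℝ in atTop, ∀ δ : ℝ, T ^ (-B) < δ → δ ≤ 1 →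
      ∫⁻ v in (Set.Ioc 0 ((κ + 1) * Real.log T))ᶜ, Om1 (kT K T) v * qd (v, δ) ≤
        ENNReal.ofReal (ε * Real.log T ^ 2 * δ) := by
  obtain ⟨c1, hc1⟩ : ∃ c1, c1 = cC ^ 2 * Real.exp 2 * (4 * M * Real.sqrt (4 * π) * Real.exp 1 * κ) :=
    ⟨_, rfl⟩
  have hc10 : 0 ≤ c1 := by rw [hc1]; positivity
  filter_upwards [Real.tendsto_log_atTop.eventually_ge_atTop (64 * (κ + B + 1)),
    Real.tendsto_log_atTop.eventually_ge_atTop 1,
    eventually_ge_atTop (c1 / ε), eventually_gt_atTop 1] with T h1 h2 h3 hT δ hδ1 hδ2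
  have hTp : 0 < T := by linarith
  have hδ0 : 0 < δ := lt_trans (by positivity) hδ1
  obtain ⟨L, hL⟩ : ∃ L, L = Real.log T := ⟨_, rfl⟩
  rw [← hL] at h1 h2
  have hL0 : 0 < L := by linarith
  have hout := Om1_out (g := L ^ 2 / 64) h hT hM (A := (Set.Ioc 0 ((κ + 1) * Real.log T))ᶜ)
    measurableSet_Ioc.compl (fun v hv u hu1 hu2 => by
      rw [← hL] at hu1 hu2 hv
      have h5 : v ≤ 0 ∨ (κ + 1) * L < v := by
        by_contra hcon
        push Not at hcon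
        exact hv ⟨hcon.1, hcon.2⟩
      rcases h5 with h5 | h5
      · have h6 : L / 4 ≤ u - v := by linarith
        have h7 := pow_le_pow_left₀ (by positivity) h6 2
        nlinarith
      · have h6 : L / 4 ≤ v - u := by nlinarith
        have h7 := pow_le_pow_left₀ (by positivity) h6 2
        nlinarith)
  rw [← hL] at hout ⊢
  have h4 : ∫⁻ v in (Set.Ioc 0 ((κ + 1) * L))ᶜ, Om1 (kT K T) v * qd (v, δ) ≤
      ENNReal.ofReal (cC ^ 2 * Real.exp (2 * δ)) * ∫⁻ v in (Set.Ioc 0 ((κ + 1) * L))ᶜ,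
        Om1 (kT K T) v * ENNReal.ofReal (Real.exp v) := by
    rw [← lintegral_const_mul' _ _ ENNReal.ofReal_ne_top]
    refine lintegral_mono fun v => ?_
    calc Om1 (kT K T) v * qd (v, δ) ≤ Om1 (kT K T) v *
        (ENNReal.ofReal (cC ^ 2 * Real.exp (2 * δ)) * ENNReal.ofReal (Real.exp v)) :=
          mul_le_mul_right (qd_crude hδ0.le) _
      _ = _ := by ring
  refine h4.trans ((mul_le_mul_right hout _).trans ?_)
  rw [← ENNReal.ofReal_mul (by positivity)]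
  refine ENNReal.ofReal_le_ofReal ?_
  have h5 : Real.exp (2 * δ) ≤ Real.exp 2 := Real.exp_le_exp.2 (by linarith)
  have h6 : Real.exp (-(L ^ 2 / 64)) ≤ Real.exp (-(κ + B + 1) * L) := by
    refine Real.exp_le_exp.2 ?_
    nlinarith
  have h7 : Real.exp (-(κ + B + 1) * L) * Real.exp (κ * L + 1) = Real.exp 1 * (T ^ (-B) * (1 / T)) := by
    have e1 : T ^ (-B) = Real.exp (-B * L) := by
      rw [Real.rpow_def_of_pos hTp, ← hL, mul_comm]
    have e2 : 1 / T = Real.exp (-L) := by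
      rw [Real.exp_neg, hL, Real.exp_log hTp, one_div]
    rw [e1, e2, ← Real.exp_add, ← Real.exp_add, ← Real.exp_add]
    congr 1
    ring
  have h8 : c1 * (1 / T) ≤ ε := by
    rw [div_le_iff₀ hε] at h3
    rw [mul_one_div, div_le_iff₀ hTp]
    linarith
  calc cC ^ 2 * Real.exp (2 * δ) * (Real.exp (-(L ^ 2 / 64)) *
      (4 * M * Real.sqrt (4 * π) * Real.exp (κ * L + 1) * (κ * L))) ≤
      cC ^ 2 * Real.exp 2 * (Real.exp (-(κ + B + 1) * L) *
      (4 * M * Real.sqrt (4 * π) * Real.exp (κ * L + 1) * (κ * L))) := by gcongr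
    _ = cC ^ 2 * Real.exp 2 * (4 * M * Real.sqrt (4 * π) * κ * L *
        (Real.exp (-(κ + B + 1) * L) * Real.exp (κ * L + 1))) := by ring
    _ = c1 * (1 / T) * (L * T ^ (-B)) := by rw [h7, hc1]; ring
    _ ≤ ε * (L * δ) := by gcongr
    _ ≤ ε * (L ^ 2 * δ) := by
        have : L * 1 ≤ L * L := mul_le_mul_of_nonneg_left h2 hL0.le
        gcongr
        nlinarith
    _ = _ := by ring

lemma compl_split {s : Set ℝ} (hs : MeasurableSet s) (F : ℝ → ℝ≥0∞) :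
    ∫⁻ v, F v = (∫⁻ v in s, F v) + ∫⁻ v in sᶜ, F v := (lintegral_add_compl F hs).symm

/-- the rough bound, with the weight -/
lemma rough_wt (h : HW) {κ M D B : ℝ} {K : ℝ → ℝ} (hK : WK κ M D K) (hM : 0 ≤ M) (hκ : 0 ≤ κ)
    (hB : 1 ≤ B) : ∃ G : ℝ, 0 ≤ G ∧ ∀ᶠ T : ℝ in atTop, ∀ δ : ℝ, T ^ (-B) < δ →
      δ ≤ T ^ (-(1 / 2) : ℝ) → ∫⁻ v, Om1 (kT K T) v * qd (v, δ) ≤
        ENNReal.ofReal (G * Real.log T ^ 2 * δ) := by
  obtain ⟨G, hG, h1⟩ := rough_all h (κ := κ) hκ hB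
  obtain ⟨P, hP⟩ : ∃ P, P = 4 * M * Real.sqrt (4 * π) := ⟨_, rfl⟩
  have hP0 : 0 ≤ P := by rw [hP]; positivity
  refine ⟨P * G + 1, by positivity, ?_⟩
  filter_upwards [h1, out_small (B := B) hK hM hκ (by linarith) one_pos, eventually_gt_atTop 1]
    with T h1 h2 hT δ hδ1 hδ2
  have hTp : 0 < T := by linarith
  have hδ0 : 0 < δ := lt_trans (by positivity) hδ1
  have hδl : δ ≤ 1 := hδ2.trans (Real.rpow_le_one_of_one_le_of_nonpos hT.le (by norm_num))
  rw [compl_split measurableSet_Ioc]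
  have h3 : ∫⁻ v in Set.Ioc 0 ((κ + 1) * Real.log T), Om1 (kT K T) v * qd (v, δ) ≤
      ENNReal.ofReal (P * (G * Real.log T ^ 2 * δ)) := by
    rw [ENNReal.ofReal_mul hP0]
    refine le_trans ?_ (mul_le_mul_right (h1 δ hδ1 hδ2) _)
    rw [← lintegral_const_mul' _ _ ENNReal.ofReal_ne_top]
    refine lintegral_mono fun v => mul_le_mul_left ?_ _
    rw [hP]
    exact Om1_main hK hT hM v
  refine (add_le_add h3 (h2 δ hδ1 hδl)).trans (le_of_eq ?_)
  rw [← ENNReal.ofReal_add (by positivity) (by positivity)]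
  congr 1
  ring

end Pool.Agent.H7.AC
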