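import Pool.Agent.H7.LH.Out

/-! The windows of scales, and Riemann sums. -/

open MeasureTheory Filter Topology Real
open scoped ENNReal

namespace Pool.Agent.H7.AC

open Pool.Agent.H7.PS Pool.Agent.H7.LH

/-- the mean square over a window of scales -/
noncomputable def Wn (a b T : ℝ) : ℝ≥0∞ :=
  ∫⁻ v in Set.Ioc (a * Real.log T) (b * Real.log T), qd (v, Real.log (1 + 1 / T))

/-- the bound on the windows -/
def WB (C a b : ℝ) : Prop := ∀ x y : ℝ, a ≤ x → x < y → y ≤ b → ∀ ε : ℝ, 0 < ε →
  ∀ᶠ T : ℝ in atTop, Wn x y T ≤ ENNReal.ofReal (C * (y - x + ε) * (Real.log T ^ 2 / T))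

lemma split_Ioc {p : ℕ → ℝ} (hp : Monotone p) (F : ℝ → ℝ≥0∞) (n : ℕ) :
    ∫⁻ v in Set.Ioc (p 0) (p n), F v ≤
      ∑ j ∈ Finset.range n, ∫⁻ v in Set.Ioc (p j) (p (j + 1)), F v := by
  induction n with
  | zero => simp
  | succ n ih =>
    rw [Finset.sum_range_succ, ← Set.Ioc_union_Ioc_eq_Ioc (hp (Nat.zero_le n)) (hp (Nat.le_succ n))]
    exact (lintegral_union_le _ _ _).trans (add_le_add ih le_rfl)

lemma rsum {C a b D : ℝ} (hC : 0 ≤ C) (hab : a < b) (h : WB C a b) {K : ℝ → ℝ}
    (h0 : ∀ x, 0 ≤ K x) (hc : Continuous K) (hl : ∀ x y, |K x - K y| ≤ D * |x - y|) {ε : ℝ}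
    (hε : 0 < ε) : ∀ᶠ T : ℝ in atTop,
    ∫⁻ v in Set.Ioc (a * Real.log T) (b * Real.log T),
      ENNReal.ofReal (K (v / Real.log T)) * qd (v, Real.log (1 + 1 / T)) ≤
    ENNReal.ofReal ((C * (∫ α in a..b, K α) + ε) * (Real.log T ^ 2 / T)) := by
  have hD : 0 ≤ D := by
    have h1 := hl 1 0
    have h2 := abs_nonneg (K 1 - K 0)
    simp at h1
    linarith
  have hba : 0 < b - a := by linarith
  obtain ⟨N, hN⟩ := exists_nat_gt (4 * C * D * (b - a) ^ 2 / ε)
  have hN0 : 0 < (N : ℝ) := lt_of_le_of_lt (by positivity) hN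
  obtain ⟨s, hs⟩ : ∃ s, s = (b - a) / N := ⟨_, rfl⟩
  have hs0 : 0 < s := by rw [hs]; positivity
  have hNs : N * s = b - a := by
    rw [hs]
    field_simp
  have hCs : C * (2 * D * s * (b - a)) ≤ ε / 2 := by
    rw [div_lt_iff₀ hε] at hN
    have e : C * (2 * D * s * (b - a)) = (4 * C * D * (b - a) ^ 2) / (2 * N) := by
      rw [hs]
      field_simp
      ring
    rw [e, div_le_iff₀ (by positivity)]
    linarith
  obtain ⟨m, hm⟩ : ∃ m : ℕ → ℝ, m = fun j : ℕ => K (a + j * s) + D * s := ⟨_, rfl⟩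
  have hm0 : ∀ j, 0 ≤ m j := fun j => by
    rw [hm]
    have := h0 (a + j * s)
    positivity
  obtain ⟨S, hS⟩ : ∃ S, S = ∑ j ∈ Finset.range N, m j := ⟨_, rfl⟩
  have hS0 : 0 ≤ S := by
    rw [hS]
    exact Finset.sum_nonneg fun j _ => hm0 j
  obtain ⟨e1, he1⟩ : ∃ e1, e1 = ε / (2 * (C * S + 1)) := ⟨_, rfl⟩
  have hCS : 0 < C * S + 1 := by positivity
  have he10 : 0 < e1 := by rw [he1]; positivity
  have hCe : C * S * e1 ≤ ε / 2 := by
    rw [he1]
    have : C * S * (ε / (2 * (C * S + 1))) = ε / 2 * (C * S / (C * S + 1)) := by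
      field_simp
    rw [this]
    have h2 : C * S / (C * S + 1) ≤ 1 := by
      rw [div_le_one hCS]
      linarith
    nlinarith
  -- the sum against the integral
  have hsum : S * s ≤ (∫ α in a..b, K α) + 2 * D * s * (b - a) := by
    have h1 := intervalIntegral.sum_integral_adjacent_intervals (f := K) (μ := volume)
      (a := fun k : ℕ => a + k * s) (n := N) fun k _ => hc.intervalIntegrable _ _
    simp only [Nat.cast_zero, zero_mul, add_zero] at h1
    have e2 : a + N * s = b := by linarith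
    rw [e2] at h1
    rw [← h1]
    have h2 : ∀ k ∈ Finset.range N, s * (m k - 2 * (D * s)) ≤
        ∫ x in (a + k * s)..(a + ((k + 1 : ℕ) : ℝ) * s), K x := by
      intro k _
      have h3 : ∫ _ in (a + k * s)..(a + ((k + 1 : ℕ) : ℝ) * s), (m k - 2 * (D * s)) ≤
          ∫ x in (a + k * s)..(a + ((k + 1 : ℕ) : ℝ) * s), K x := by
        refine intervalIntegral.integral_mono_on ?_ (by simp) (hc.intervalIntegrable _ _) ?_
        · push_cast
          nlinarith
        · intro x hx
          have h4 := hl (a + k * s) x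
          have h5 : |a + k * s - x| ≤ s := by
            rw [abs_sub_comm, abs_of_nonneg (by linarith [hx.1])]
            have := hx.2
            push_cast at this
            linarith
          have h6 := (le_abs_self _).trans (h4.trans (mul_le_mul_of_nonneg_left h5 hD))
          rw [hm]
          show K (a + k * s) + D * s - 2 * (D * s) ≤ K x
          linarith
      rw [intervalIntegral.integral_const, smul_eq_mul] at h3
      have e3 : a + ((k + 1 : ℕ) : ℝ) * s - (a + k * s) = s := by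
        push_cast
        ring
      rwa [e3] at h3
    have h7 := Finset.sum_le_sum h2
    rw [← Finset.mul_sum, Finset.sum_sub_distrib, ← hS, Finset.sum_const, Finset.card_range,
      nsmul_eq_mul] at h7
    have e4 : s * (S - N * (2 * (D * s))) = S * s - 2 * D * s * (N * s) := by ring
    rw [e4, hNs] at h7
    linarith
  have hw : ∀ᶠ T : ℝ in atTop, ∀ j ∈ Finset.range N, Wn (a + j * s) (a + ((j + 1 : ℕ) : ℝ) * s) T ≤
      ENNReal.ofReal (C * (s + e1) * (Real.log T ^ 2 / T)) := by
    refine (Filter.eventually_all_finset _).2 fun j hj => ?_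
    have hj2 : ((j + 1 : ℕ) : ℝ) ≤ N := by exact_mod_cast Finset.mem_range.1 hj
    have h1 := h (a + j * s) (a + ((j + 1 : ℕ) : ℝ) * s) (by
      have : 0 ≤ (j : ℝ) * s := by positivity
      linarith) (by push_cast; linarith) (by
      have : ((j + 1 : ℕ) : ℝ) * s ≤ N * s := mul_le_mul_of_nonneg_right hj2 hs0.le
      linarith) e1 he10
    filter_upwards [h1] with T h2
    refine h2.trans (le_of_eq ?_)
    congr 3
    push_cast
    ring
  filter_upwards [hw, eventually_gt_atTop 1] with T hw hT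
  have hL : 0 < Real.log T := Real.log_pos hT
  have hTp : 0 < T := by linarith
  obtain ⟨Q, hQ⟩ : ∃ Q, Q = Real.log T ^ 2 / T := ⟨_, rfl⟩
  have hQ0 : 0 ≤ Q := by rw [hQ]; positivity
  rw [← hQ] at hw ⊢
  have hmono : Monotone fun j : ℕ => (a + j * s) * Real.log T := by
    refine monotone_nat_of_le_succ fun j => ?_
    refine mul_le_mul_of_nonneg_right ?_ hL.le
    push_cast
    linarith
  have h1 := split_Ioc hmono (fun v => ENNReal.ofReal (K (v / Real.log T)) *
    qd (v, Real.log (1 + 1 / T))) N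
  simp only [Nat.cast_zero, zero_mul, add_zero] at h1
  have e2 : a + N * s = b := by linarith
  rw [e2] at h1
  refine h1.trans ?_
  have h2 : ∀ j ∈ Finset.range N,
      ∫⁻ v in Set.Ioc ((a + j * s) * Real.log T) ((a + ((j + 1 : ℕ) : ℝ) * s) * Real.log T),
        ENNReal.ofReal (K (v / Real.log T)) * qd (v, Real.log (1 + 1 / T)) ≤
      ENNReal.ofReal (m j * (C * (s + e1) * Q)) := by
    intro j hj
    have h3 : ∫⁻ v in Set.Ioc ((a + j * s) * Real.log T) ((a + ((j + 1 : ℕ) : ℝ) * s) * Real.log T),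
        ENNReal.ofReal (K (v / Real.log T)) * qd (v, Real.log (1 + 1 / T)) ≤
        ∫⁻ v in Set.Ioc ((a + j * s) * Real.log T) ((a + ((j + 1 : ℕ) : ℝ) * s) * Real.log T),
        ENNReal.ofReal (m j) * qd (v, Real.log (1 + 1 / T)) := by
      refine setLIntegral_mono' measurableSet_Ioc fun v hv => ?_
      refine mul_le_mul_left (ENNReal.ofReal_le_ofReal ?_) _
      have h4 := hl (v / Real.log T) (a + j * s)
      have h6 : a + j * s < v / Real.log T := by
        rw [lt_div_iff₀ hL]
        exact hv.1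
      have h7 : v / Real.log T ≤ a + ((j + 1 : ℕ) : ℝ) * s := by
        rw [div_le_iff₀ hL]
        exact hv.2
      have h5 : |v / Real.log T - (a + j * s)| ≤ s := by
        rw [abs_of_nonneg (by linarith)]
        push_cast at h7
        linarith
      have h8 := (le_abs_self _).trans (h4.trans (mul_le_mul_of_nonneg_left h5 hD))
      rw [hm]
      show K (v / Real.log T) ≤ K (a + j * s) + D * s
      linarith
    rw [lintegral_const_mul' _ _ ENNReal.ofReal_ne_top] at h3
    refine h3.trans ((mul_le_mul_right (hw j hj) _).trans (le_of_eq ?_))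
    rw [← ENNReal.ofReal_mul (hm0 j)]
  refine (Finset.sum_le_sum h2).trans ?_
  rw [← ENNReal.ofReal_sum_of_nonneg fun j _ => mul_nonneg (hm0 j) (by positivity),
    ← Finset.sum_mul, ← hS]
  refine ENNReal.ofReal_le_ofReal ?_
  have h9 : S * (C * (s + e1) * Q) = (C * (S * s) + C * S * e1) * Q := by ring
  rw [h9]
  refine mul_le_mul_of_nonneg_right ?_ hQ0
  have h10 := mul_le_mul_of_nonneg_left hsum hC
  linarith

end Pool.Agent.H7.AC
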