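import Pool.Agent.H7.AC.Rng

/-! The sharp bound for the lengths of order `1 / T`. -/

open MeasureTheory Filter Topology Real
open scoped ENNReal

namespace Pool.Agent.H7.AC

open Pool.Agent.H7.PS Pool.Agent.H7.LH

/-- the sharp bound at the height which belongs to the length -/
lemma sharp_T (h : HW) {κ M D b : ℝ} {K : ℝ → ℝ} (hK : WK κ M D K) (hb : 1 < b) {ε : ℝ}
    (hε : 0 < ε) : ∃ η : ℝ, 0 < η ∧ ∀ᶠ T : ℝ in atTop,
      ∫⁻ v in Set.Ioc 0 (b * Real.log T), ENNReal.ofReal (K (v / Real.log T) + η) *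
        qd (v, Real.log (1 + 1 / T)) ≤
      ENNReal.ofReal ((2 * cC * (∫ α in (0 : ℝ)..1, K α) + (∫ α in (1 : ℝ)..b, K α) + ε) *
        (Real.log T ^ 2 / T)) := by
  have hc := cC_one
  obtain ⟨η, hη⟩ : ∃ η, η = ε / (4 * (2 * cC + (b - 1))) := ⟨_, rfl⟩
  have hb1 : 0 < b - 1 := by linarith
  have hη0 : 0 < η := by rw [hη]; positivity
  have hηe : (2 * cC + (b - 1)) * η ≤ ε / 4 := by
    rw [hη]
    have h1 : 0 < 2 * cC + (b - 1) := by linarith
    refine le_of_eq ?_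
    field_simp
  refine ⟨η, hη0, ?_⟩
  have hKc : Continuous fun x => K x + η := hK.cont.add continuous_const
  have hK0 : ∀ x, 0 ≤ K x + η := fun x => add_nonneg (hK.nonneg x) hη0.le
  have hKl : ∀ x y, |K x + η - (K y + η)| ≤ D * |x - y| := fun x y => by
    rw [add_sub_add_right_eq_sub]
    exact hK.lip x y
  have hi : ∀ x y : ℝ, ∫ α in x..y, (K α + η) = (∫ α in x..y, K α) + (y - x) * η := by
    intro x y
    rw [intervalIntegral.integral_add (hK.cont.intervalIntegrable _ _) (by simp),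
      intervalIntegral.integral_const, smul_eq_mul]
  filter_upwards [rsum (by linarith) one_pos near hK0 hKc hKl (show 0 < ε / 4 by positivity),
    rsum (by norm_num) hb (h b hb) hK0 hKc hKl (show 0 < ε / 4 by positivity),
    eventually_gt_atTop 1] with T h1 h2 hT
  have hL : 0 < Real.log T := Real.log_pos hT
  have hTp : 0 < T := by linarith
  rw [hi] at h1 h2
  have h3 : Set.Ioc 0 (b * Real.log T) ⊆ Set.Ioc (0 * Real.log T) (1 * Real.log T) ∪
      Set.Ioc (1 * Real.log T) (b * Real.log T) := by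
    intro v hv
    by_cases h : v ≤ 1 * Real.log T
    · exact Or.inl ⟨by rw [zero_mul]; exact hv.1, h⟩
    · exact Or.inr ⟨not_le.1 h, hv.2⟩
  refine (lintegral_mono_set h3).trans ((lintegral_union_le _ _ _).trans
    ((add_le_add h1 h2).trans ?_))
  have i1 : 0 ≤ ∫ α in (0 : ℝ)..1, K α :=
    intervalIntegral.integral_nonneg (by norm_num) fun x _ => hK.nonneg x
  have i2 : 0 ≤ ∫ α in (1 : ℝ)..b, K α :=
    intervalIntegral.integral_nonneg hb.le fun x _ => hK.nonneg x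
  rw [← ENNReal.ofReal_add (by positivity) (by positivity), ← add_mul]
  refine ENNReal.ofReal_le_ofReal (mul_le_mul_of_nonneg_right ?_ (by positivity))
  have e1 : 2 * cC * ((∫ α in (0 : ℝ)..1, K α) + (1 - 0) * η) + ε / 4 +
      (1 * ((∫ α in (1 : ℝ)..b, K α) + (b - 1) * η) + ε / 4) =
      2 * cC * (∫ α in (0 : ℝ)..1, K α) + (∫ α in (1 : ℝ)..b, K α) +
        (2 * cC + (b - 1)) * η + ε / 2 := by ring
  rw [e1]
  linarith

lemma Om0_v {κ M D T v : ℝ} {K : ℝ → ℝ} (h : WK κ M D K) (hT : 1 < T) :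
    Om0 (kT K T) v ≤ ENNReal.ofReal (Real.sqrt π * (K (v / Real.log T) + 3 * D / Real.log T)) := by
  have h1 := Om0_main (X := Real.exp v) (a := Real.exp v) h hT (Real.exp_pos v)
    ⟨le_rfl, by linarith [Real.exp_pos v]⟩
  rwa [Real.log_exp] at h1

lemma fin_num {I ε L δ q w p : ℝ} (hI : 0 ≤ I) (hε : 0 < ε) (hδ : 0 < δ) (hL : 0 < L)
    (hp : 1 ≤ p) (hw : q ≤ w * (L ^ 2 * δ)) (hw2 : (I + ε / 4) * w < I + ε / 2) :
    p * ((I + ε / 4) * q) + ε / 4 * L ^ 2 * δ ≤ p * (I + ε) * L ^ 2 * δ := by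
  obtain ⟨y, hy⟩ : ∃ y, y = L ^ 2 * δ := ⟨_, rfl⟩
  have hy0 : 0 < y := by rw [hy]; positivity
  rw [← hy] at hw
  have h1 : (I + ε / 4) * q ≤ (I + ε / 4) * (w * y) := mul_le_mul_of_nonneg_left hw (by positivity)
  have h2 : (I + ε / 4) * (w * y) ≤ (I + ε / 2) * y := by
    rw [← mul_assoc]
    exact mul_le_mul_of_nonneg_right hw2.le hy0.le
  have h3 : p * ((I + ε / 4) * q) ≤ p * ((I + ε / 2) * y) :=
    mul_le_mul_of_nonneg_left (h1.trans h2) (by linarith)
  have h4 : ε / 4 * y ≤ p * (ε / 4 * y) := by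
    have : 0 ≤ ε / 4 * y := by positivity
    nlinarith
  have e1 : ε / 4 * L ^ 2 * δ = ε / 4 * y := by rw [hy]; ring
  have e2 : p * (I + ε) * L ^ 2 * δ = p * ((I + ε / 2) * y) + p * (ε / 4 * y) +
      p * (ε / 4 * y) := by rw [hy]; ring
  rw [e1, e2]
  have h5 : 0 ≤ p * (ε / 4 * y) := by positivity
  linarith

/-- **the sharp bound** -/
lemma sharp_wt (h : HW) {κ M D : ℝ} {K : ℝ → ℝ} (hK : WK κ M D K) (hM : 0 ≤ M) (hκ : 1 ≤ κ)
    {h0 h1 ε : ℝ} (hh0 : 0 < h0) (hε : 0 < ε) :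
    ∀ᶠ T : ℝ in atTop, ∀ δ : ℝ, h0 / T < δ → δ ≤ h1 / T →
      ∫⁻ v, Om0 (kT K T) v * qd (v, δ) ≤
        ENNReal.ofReal (Real.sqrt π * (2 * cC * (∫ α in (0 : ℝ)..1, K α) +
          (∫ α in (0 : ℝ)..κ, K α) + ε) * Real.log T ^ 2 * δ) := by
  have hD : 0 ≤ D := by
    have h1 := hK.lip 1 0
    have h2 := abs_nonneg (K 1 - K 0)
    simp at h1
    linarith
  have hc := cC_one
  have hpi : 0 < Real.sqrt π := by positivity
  have hpi1 : 1 ≤ Real.sqrt π := by
    rw [Real.one_le_sqrt]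
    linarith [Real.pi_gt_three]
  obtain ⟨I, hI⟩ : ∃ I, I = 2 * cC * (∫ α in (0 : ℝ)..1, K α) + (∫ α in (0 : ℝ)..κ, K α) :=
    ⟨_, rfl⟩
  have i1 : 0 ≤ ∫ α in (0 : ℝ)..1, K α :=
    intervalIntegral.integral_nonneg (by norm_num) fun x _ => hK.nonneg x
  have i2 : 0 ≤ ∫ α in (0 : ℝ)..κ, K α :=
    intervalIntegral.integral_nonneg (by linarith) fun x _ => hK.nonneg x
  have hI0 : 0 ≤ I := by rw [hI]; positivity
  rw [← hI]
  obtain ⟨b, hb⟩ : ∃ b, b = 2 * (κ + 1) := ⟨_, rfl⟩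
  obtain ⟨η, hη, hsh⟩ := sharp_T h hK (b := b) (by linarith) (show 0 < ε / 4 by positivity)
  obtain ⟨T0, hT0⟩ := (hsh.and (eventually_gt_atTop 1)).exists_forall_of_atTop
  -- constants
  obtain ⟨Λ, hΛ⟩ : ∃ Λ, Λ = |Real.log h0| + |Real.log (2 * h1)| := ⟨_, rfl⟩
  have hΛ0 : 0 ≤ Λ := by rw [hΛ]; positivity
  have hT1 : ∀ᶠ T : ℝ in atTop, (I + ε / 4) * ((1 + Λ / Real.log T) ^ 2 * (1 + h1 / T)) <
      I + ε / 2 := by
    have t1 : Tendsto (fun T : ℝ => (I + ε / 4) * ((1 + Λ / Real.log T) ^ 2 * (1 + h1 / T))) atTop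
        (𝓝 ((I + ε / 4) * ((1 + 0) ^ 2 * (1 + 0)))) := by
      refine Tendsto.const_mul _ (Tendsto.mul (Tendsto.pow ?_ 2) ?_)
      · exact (tendsto_const_nhds.div_atTop Real.tendsto_log_atTop).const_add 1
      · exact (tendsto_const_nhds.div_atTop tendsto_id).const_add 1
    exact (tendsto_order.1 t1).2 _ (by norm_num; linarith)
  have hT2 : ∀ᶠ T : ℝ in atTop, (2 * D * (κ + 1) * Λ + 3 * D) / Real.log T < η :=
    (tendsto_order.1 (tendsto_const_nhds.div_atTop Real.tendsto_log_atTop)).2 _ hη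
  have hB := out_small (B := 2) hK hM (by linarith) (by norm_num) (show 0 < ε / 4 by positivity)
  filter_upwards [hT1, hT2, hB, eventually_gt_atTop 1, eventually_ge_atTop (2 * h1 * max T0 1),
    eventually_ge_atTop h1, eventually_gt_atTop (1 / h0),
    Real.tendsto_log_atTop.eventually_ge_atTop (2 * Λ + 1)]
    with T a1 a2 hB hT a3 a4 a5 a6 δ hδ1 hδ2
  have hTp : 0 < T := by linarith
  have hδ0 : 0 < δ := lt_trans (by positivity) hδ1
  have hh1 : 0 < h1 := by
    have h2 : 0 < h1 / T := hδ0.trans_le hδ2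
    by_contra hcon
    have : h1 / T ≤ 0 := div_nonpos_of_nonpos_of_nonneg (not_lt.1 hcon) hTp.le
    linarith
  have hδl : δ ≤ 1 := hδ2.trans (by rw [div_le_one hTp]; exact a4)
  obtain ⟨b1, b2, b3, b4⟩ := Th_bd hδ0 hδl
  obtain ⟨T', hT'⟩ : ∃ T', T' = Th δ := ⟨_, rfl⟩
  have elog : Real.log (1 + 1 / T') = δ := by rw [hT', Th_log hδ0]
  rw [← hT'] at b1 b2 b3 b4
  obtain ⟨L, hL⟩ : ∃ L, L = Real.log T := ⟨_, rfl⟩
  obtain ⟨L', hL'⟩ : ∃ L', L' = Real.log T' := ⟨_, rfl⟩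
  rw [← hL] at a1 a2 a6 hB ⊢
  have hL0 : 0 < L := by linarith
  have hlow : T / (2 * h1) ≤ T' := by
    refine le_trans ?_ b3
    rw [div_le_div_iff₀ (by positivity) (by positivity)]
    have h2 : T * δ ≤ h1 := by
      rw [le_div_iff₀ hTp] at hδ2
      linarith
    nlinarith
  have hhigh : T' ≤ T / h0 := by
    refine b2.trans ?_
    rw [div_le_div_iff₀ hδ0 hh0]
    rw [div_lt_iff₀ hTp] at hδ1
    linarith
  have hT'0 : T0 ≤ T' := by
    refine le_trans ?_ hlow
    rw [le_div_iff₀ (by positivity)]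
    have : 2 * h1 * T0 ≤ 2 * h1 * max T0 1 := mul_le_mul_of_nonneg_left (le_max_left _ _)
      (by positivity)
    linarith
  obtain ⟨hs, hT'1⟩ := hT0 T' hT'0
  rw [elog, ← hL'] at hs
  have hLL : |L' - L| ≤ Λ := by
    rw [abs_le]
    constructor
    · have h2 := Real.log_le_log (by positivity) hlow
      rw [Real.log_div hTp.ne' (by positivity), ← hL, ← hL'] at h2
      have h3 := le_abs_self (Real.log (2 * h1))
      have h4 := abs_nonneg (Real.log h0)
      linarith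
    · have h2 := Real.log_le_log b1 hhigh
      rw [Real.log_div hTp.ne' hh0.ne', ← hL, ← hL'] at h2
      have h3 := neg_abs_le (Real.log h0)
      have h4 := abs_nonneg (Real.log (2 * h1))
      linarith
  have hLL1 := (abs_le.1 hLL).1
  have hLL2 := (abs_le.1 hLL).2
  have hL'2 : L / 2 ≤ L' := by linarith
  have hL'0 : 0 < L' := by linarith
  rw [compl_split (measurableSet_Ioc (a := (0 : ℝ)) (b := (κ + 1) * L))]
  -- outside
  have p2 : ∫⁻ v in (Set.Ioc 0 ((κ + 1) * L))ᶜ, Om0 (kT K T) v * qd (v, δ) ≤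
      ENNReal.ofReal (ε / 4 * L ^ 2 * δ) := by
    refine (lintegral_mono fun v => mul_le_mul_left (Om0_le_Om1 _ _) _).trans (hB δ ?_ hδl)
    refine lt_of_le_of_lt ?_ hδ1
    rw [div_lt_iff₀ hh0] at a5
    rw [Real.rpow_neg hTp.le, le_div_iff₀ hTp]
    norm_num
    rw [inv_mul_le_iff₀ (by positivity)]
    nlinarith
  -- inside
  have p1 : ∫⁻ v in Set.Ioc 0 ((κ + 1) * L), Om0 (kT K T) v * qd (v, δ) ≤
      ENNReal.ofReal (Real.sqrt π * ((I + ε / 4) * (L' ^ 2 / T'))) := by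
    have h2 : ∫⁻ v in Set.Ioc 0 ((κ + 1) * L), Om0 (kT K T) v * qd (v, δ) ≤
        ∫⁻ v in Set.Ioc 0 (b * L'), ENNReal.ofReal (Real.sqrt π) *
          (ENNReal.ofReal (K (v / L') + η) * qd (v, δ)) := by
      rw [← lintegral_indicator measurableSet_Ioc, ← lintegral_indicator measurableSet_Ioc]
      refine lintegral_mono fun v => ?_
      by_cases hv : v ∈ Set.Ioc 0 ((κ + 1) * L)
      · have hv2 : v ∈ Set.Ioc 0 (b * L') := ⟨hv.1, hv.2.trans (by rw [hb]; nlinarith)⟩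
        rw [Set.indicator_of_mem hv, Set.indicator_of_mem hv2, ← mul_assoc,
          ← ENNReal.ofReal_mul hpi.le]
        refine mul_le_mul_left ((Om0_v hK hT).trans (ENNReal.ofReal_le_ofReal ?_)) _
        refine mul_le_mul_of_nonneg_left ?_ hpi.le
        rw [← hL]
        have h3 := (le_abs_self _).trans (hK.lip (v / L) (v / L'))
        have h4 : |v / L - v / L'| ≤ 2 * (κ + 1) * Λ / L := by
          have h5 : v / L - v / L' = v / L * ((L' - L) / L') := by
            field_simp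
          rw [h5, abs_mul, abs_of_nonneg (div_nonneg hv.1.le hL0.le), abs_div, abs_of_pos hL'0]
          have h6 : v / L ≤ κ + 1 := by
            rw [div_le_iff₀ hL0]
            exact hv.2
          have h7 : |L' - L| / L' ≤ 2 * Λ / L := by
            rw [div_le_div_iff₀ hL'0 hL0]
            calc |L' - L| * L ≤ Λ * L := mul_le_mul_of_nonneg_right hLL hL0.le
              _ ≤ Λ * (2 * L') := mul_le_mul_of_nonneg_left (by linarith) hΛ0
              _ = _ := by ring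
          calc v / L * (|L' - L| / L') ≤ (κ + 1) * (2 * Λ / L) :=
                mul_le_mul h6 h7 (by positivity) (by linarith)
            _ = _ := by ring
        have h5 := mul_le_mul_of_nonneg_left h4 hD
        have h6 : D * (2 * (κ + 1) * Λ / L) + 3 * D / L = (2 * D * (κ + 1) * Λ + 3 * D) / L := by
          ring
        linarith
      · rw [Set.indicator_of_notMem hv]
        exact zero_le
    refine h2.trans ?_
    rw [lintegral_const_mul' _ _ ENNReal.ofReal_ne_top, ENNReal.ofReal_mul hpi.le]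
    refine mul_le_mul_right (hs.trans (ENNReal.ofReal_le_ofReal ?_)) _
    refine mul_le_mul_of_nonneg_right ?_ (by positivity)
    have h3 : ∫ α in (1 : ℝ)..b, K α ≤ ∫ α in (0 : ℝ)..κ, K α :=
      supp_int hK (by linarith) (by norm_num) (by linarith)
    rw [hI]
    linarith
  refine (add_le_add p1 p2).trans ?_
  rw [← ENNReal.ofReal_add (by positivity) (by positivity)]
  refine ENNReal.ofReal_le_ofReal ?_
  have h3 : L' ^ 2 / T' ≤ (1 + Λ / L) ^ 2 * (1 + h1 / T) * (L ^ 2 * δ) := by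
    have h4 : L' ^ 2 ≤ (L + Λ) ^ 2 := pow_le_pow_left₀ hL'0.le (by linarith) 2
    have h5 : 1 / T' ≤ δ * (1 + h1 / T) := by
      refine b4.trans (mul_le_mul_of_nonneg_left ?_ hδ0.le)
      linarith
    calc L' ^ 2 / T' = L' ^ 2 * (1 / T') := by ring
      _ ≤ (L + Λ) ^ 2 * (δ * (1 + h1 / T)) := by gcongr
      _ = _ := by
          field_simp
  exact fin_num hI0 hε hδ0 hL0 hpi1 h3 a1

end Pool.Agent.H7.AC
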