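import Pool.Agent.H7.AC.Cnt

/-! The windows as integrals over `x`. -/

open MeasureTheory Filter Topology Real
open scoped ENNReal

namespace Pool.Agent.H7.AC

open Pool.Agent.H7.PS Pool.Agent.H7.LH

lemma Dsq_int {a b T : ℝ} (hT : 1 < T) (ha : 0 ≤ a) :
    IntegrableOn (fun x => Dx T x ^ 2 / x ^ 2) (Set.Ioc (T ^ a) (T ^ b)) := by
  have hTa : 1 ≤ T ^ a := Real.one_le_rpow hT.le ha
  refine Measure.integrableOn_of_bounded (M := 4 * cC ^ 2) (by simp [Real.volume_Ioc])
    (((Dx_meas T).pow_const 2).div (measurable_id.pow_const 2)).aestronglyMeasurable ?_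
  refine (ae_restrict_iff' measurableSet_Ioc).2 (Eventually.of_forall fun x hx => ?_)
  have hx0 : 0 < x := by linarith [hx.1]
  rw [Real.norm_eq_abs, abs_of_nonneg (by positivity), div_le_iff₀ (by positivity)]
  have h2 : Dx T x ^ 2 ≤ (2 * cC * x) ^ 2 := by
    rw [← sq_abs]
    exact pow_le_pow_left₀ (abs_nonneg _) (Dx_le hT hx0) 2
  linarith

lemma Wn_eq {a b T : ℝ} (hT : 1 < T) (ha : 0 ≤ a) (hab : a ≤ b) :
    Wn a b T = ENNReal.ofReal (∫ x in (T ^ a)..(T ^ b), Dx T x ^ 2 / x ^ 2) := by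
  have hL : 0 < Real.log T := Real.log_pos hT
  have hTp : 0 < T := by linarith
  have hTA : 1 ≤ T ^ a := Real.one_le_rpow hT.le ha
  have hTAb : T ^ a ≤ T ^ b := Real.rpow_le_rpow_of_exponent_le hT.le hab
  rw [intervalIntegral.integral_of_le hTAb, ofReal_integral_eq_lintegral_ofReal (Dsq_int hT ha)
    ((ae_restrict_iff' measurableSet_Ioc).2 (Eventually.of_forall fun x hx => by
      show 0 ≤ Dx T x ^ 2 / x ^ 2
      positivity))]
  unfold Wn
  rw [← lintegral_indicator measurableSet_Ioc, sub_log (g := (Set.Ioc (a * Real.log T)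
    (b * Real.log T)).indicator fun v => qd (v, Real.log (1 + 1 / T))),
    ← lintegral_indicator measurableSet_Ioi, ← lintegral_indicator measurableSet_Ioc]
  refine lintegral_congr fun x => ?_
  by_cases hx : 0 < x
  · rw [Set.indicator_of_mem (show x ∈ Set.Ioi (0 : ℝ) from hx)]
    have hiff : Real.log x ∈ Set.Ioc (a * Real.log T) (b * Real.log T) ↔
        x ∈ Set.Ioc (T ^ a) (T ^ b) := by
      rw [Set.mem_Ioc, Set.mem_Ioc, Real.lt_log_iff_exp_lt hx, Real.log_le_iff_le_exp hx,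
        rpow_exp hT, rpow_exp hT]
    by_cases h1 : x ∈ Set.Ioc (T ^ a) (T ^ b)
    · rw [Set.indicator_of_mem (hiff.2 h1), Set.indicator_of_mem h1]
      unfold qd
      show ENNReal.ofReal (1 / x) *
        ENNReal.ofReal (Real.exp (-Real.log x) * dn (Real.log x) (Real.log (1 + 1 / T)) ^ 2) = _
      rw [← ENNReal.ofReal_mul (by positivity)]
      congr 1
      have e1 : dn (Real.log x) (Real.log (1 + 1 / T)) = Dx T x := by
        unfold dn Dx
        have e2 : Real.exp (Real.log x + Real.log (1 + 1 / T)) = x + x / T := by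
          rw [Real.exp_add, Real.exp_log hx, Real.exp_log (by positivity)]
          ring
        rw [e2, Real.exp_log hx]
        ring
      rw [e1, Real.exp_neg, Real.exp_log hx]
      field_simp
    · rw [Set.indicator_of_notMem (fun h => h1 (hiff.1 h)), Set.indicator_of_notMem h1, mul_zero]
  · rw [Set.indicator_of_notMem (show x ∉ Set.Ioi (0 : ℝ) from hx),
      Set.indicator_of_notMem (fun h => hx (by linarith [h.1]))]

/-- the normalised mean square over a window of scales -/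
noncomputable def Jw (a b T : ℝ) : ℝ :=
  T / Real.log T ^ 2 * ∫ x in (T ^ a)..(T ^ b), Dx T x ^ 2 / x ^ 2

lemma Wn_le {a b T c : ℝ} (hT : 1 < T) (ha : 0 ≤ a) (hab : a ≤ b) (h : Jw a b T ≤ c) :
    Wn a b T ≤ ENNReal.ofReal (c * (Real.log T ^ 2 / T)) := by
  have hL : 0 < Real.log T := Real.log_pos hT
  have hTp : 0 < T := by linarith
  rw [Wn_eq hT ha hab]
  refine ENNReal.ofReal_le_ofReal ?_
  have h1 := mul_le_mul_of_nonneg_right h (show 0 ≤ Real.log T ^ 2 / T by positivity)
  refine le_trans (le_of_eq ?_) h1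
  unfold Jw
  field_simp

/-- the one-sided hypothesis -/
def UW : Prop := ∀ a b : ℝ, 1 ≤ a → a < b → ∀ ε : ℝ, 0 < ε → ∀ᶠ T : ℝ in atTop,
  Jw a b T ≤ b - a + ε

lemma UW.toHW (h : UW) : HW := by
  intro b _ x y hx hxy _ ε hε
  filter_upwards [h x y hx hxy ε hε, eventually_gt_atTop 1] with T h1 hT
  rw [one_mul]
  exact Wn_le hT (by linarith) hxy.le h1

lemma Jw_add {a b T : ℝ} (hT : 1 < T) (ha : 0 ≤ a) (hab : a ≤ b) :
    Jw 0 b T = Jw 0 a T + Jw a b T := by
  unfold Jw
  rw [← mul_add]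
  congr 1
  have hb : 0 ≤ b := ha.trans hab
  refine (intervalIntegral.integral_add_adjacent_intervals ?_ ?_).symm
  · rw [intervalIntegrable_iff_integrableOn_Ioc_of_le
      (Real.rpow_le_rpow_of_exponent_le hT.le ha)]
    exact Dsq_int hT le_rfl
  · rw [intervalIntegrable_iff_integrableOn_Ioc_of_le
      (Real.rpow_le_rpow_of_exponent_le hT.le hab)]
    exact Dsq_int hT ha

lemma UW_of_lim (h : ∀ b : ℝ, 1 ≤ b → Tendsto (fun T => Jw 0 b T) atTop (𝓝 (b - 1 / 2))) : UW := by
  intro a b ha hab ε hε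
  have h1 : Tendsto (fun T => Jw 0 b T - Jw 0 a T) atTop (𝓝 ((b - 1 / 2) - (a - 1 / 2))) :=
    (h b (ha.trans hab.le)).sub (h a ha)
  have h2 := (tendsto_order.1 h1).2 (b - a + ε) (by linarith)
  filter_upwards [h2, eventually_gt_atTop 1] with T h3 hT
  have h4 := Jw_add (a := a) (b := b) hT (by linarith) hab.le
  linarith

end Pool.Agent.H7.AC
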