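import Pool.Agent.H7.AC.Jb
import Pool.Agent.H7.AC.Lim

/-! The upper bound for the mixtures, from the bounds on the windows. -/

open MeasureTheory Filter Topology Real
open scoped ENNReal

namespace Pool.Agent.H7.AC

open Pool.Agent.H7.PS Pool.Agent.H7.LH Pool.Agent.H7.FF Pool.Agent.Y744 Pool.Agent.Y744.ANC

lemma y_mass {R : ℝ} (hR : 0 ≤ R) :
    ∫⁻ y in Set.Ioc (1 / 2 : ℝ) 1, ENNReal.ofReal (R / (2 * y ^ 2)) = ENNReal.ofReal (R / 2) := by
  have hc : ContinuousOn (fun y : ℝ => R / (2 * y ^ 2)) (Set.Icc (1 / 2 : ℝ) 1) := by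
    refine ContinuousOn.div continuousOn_const (by fun_prop) fun y hy => ?_
    have : 0 < y := by linarith [hy.1]
    positivity
  have hi : IntegrableOn (fun y : ℝ => R / (2 * y ^ 2)) (Set.Ioc (1 / 2 : ℝ) 1) :=
    hc.integrableOn_Icc.mono_set Set.Ioc_subset_Icc_self
  rw [← ofReal_integral_eq_lintegral_ofReal hi (Eventually.of_forall fun y => by
    show 0 ≤ R / (2 * y ^ 2)
    positivity), ← intervalIntegral.integral_of_le (by norm_num)]
  congr 1
  have hd : ∀ y ∈ Set.uIcc (1 / 2 : ℝ) 1, HasDerivAt (fun y => -(R / 2) * y⁻¹)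
      (R / (2 * y ^ 2)) y := by
    intro y hy
    rw [Set.uIcc_of_le (by norm_num)] at hy
    have hy0 : y ≠ 0 := by
      have : 0 < y := by linarith [hy.1]
      exact this.ne'
    refine ((hasDerivAt_inv hy0).const_mul (-(R / 2))).congr_deriv ?_
    field_simp
  rw [intervalIntegral.integral_eq_sub_of_hasDerivAt hd
    ((intervalIntegrable_iff_integrableOn_Ioc_of_le (by norm_num)).2 hi)]
  norm_num
  ring

theorem HW.toZU (h : HW) : ZU := by
  intro κ hκ
  have hcC := cC_one
  refine ⟨2 * cC, by linarith, fun K M D hM hK c hc δ hδ => ?_⟩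
  have i1 : 0 ≤ ∫ α in (0 : ℝ)..1, K α :=
    intervalIntegral.integral_nonneg (by norm_num) fun x _ => hK.nonneg x
  have i2 : 0 ≤ ∫ α in (0 : ℝ)..κ, K α :=
    intervalIntegral.integral_nonneg (by linarith) fun x _ => hK.nonneg x
  obtain ⟨I, hI⟩ : ∃ I, I = 2 * cC * (∫ α in (0 : ℝ)..1, K α) + (∫ α in (0 : ℝ)..κ, K α) :=
    ⟨_, rfl⟩
  have hI0 : 0 ≤ I := by rw [hI]; positivity
  have hI1 : I ≤ (∫ α in (0 : ℝ)..κ, K α) + 2 * cC * (∫ α in (0 : ℝ)..(1 + δ), K α) := by
    have h1 : ∫ α in (0 : ℝ)..1, K α ≤ ∫ α in (0 : ℝ)..(1 + δ), K α :=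
      intervalIntegral.integral_mono_interval le_rfl (by linarith) (by linarith)
        (Eventually.of_forall fun x => hK.nonneg x) (hK.cont.intervalIntegrable _ _)
    have h2 := mul_le_mul_of_nonneg_left h1 (show 0 ≤ 2 * cC by linarith)
    rw [hI]
    linarith
  obtain ⟨η, hη, hη2⟩ : ∃ η : ℝ, 0 < η ∧ (1 + η) * (I + δ / 4) ≤ I + δ / 2 := by
    refine ⟨δ / 4 / (I + δ / 4), by positivity, le_of_eq ?_⟩
    have : I + δ / 4 ≠ 0 := by positivity
    field_simp
    ring
  have hpi := Real.pi_pos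
  have hspi : 0 < Real.sqrt π := by positivity
  have hc2 : 0 < c / 2 := by positivity
  obtain ⟨C', hC', h1⟩ := jf_rough h hK hM hκ hc2
  have h0 := jf_sharp h hK hM hκ hc (show 0 < δ / 4 by positivity)
  rw [← hI] at h0
  have t1 : Tendsto (fun T : ℝ => 2 * (1 + 1 / η) * (C' / (c / 2 * T) ^ 2)) atTop
      (𝓝 (2 * (1 + 1 / η) * 0)) := by
    refine Tendsto.const_mul _ (tendsto_const_nhds.div_atTop ?_)
    exact (tendsto_pow_atTop two_ne_zero).comp (tendsto_id.const_mul_atTop hc2)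
  rw [mul_zero] at t1
  filter_upwards [h0, h1, (tendsto_order.1 t1).2 (Real.sqrt π * (δ / 2)) (by positivity),
    eventually_gt_atTop 1] with T h0 h1 ht hT1
  have hT0 : 0 < T := by linarith
  have hR : 0 < c * T := by positivity
  obtain ⟨k, hk⟩ : ∃ k, k = kT K T := ⟨_, rfl⟩
  have hkm : Measurable k := by rw [hk]; exact kT_meas hK T
  have hf : Measurable fun t : ℝ => ∫⁻ u in Set.Ioi (0 : ℝ), k u * PH (u, t) := by
    have m1 : Measurable fun p : ℝ × ℝ => k p.2 * PH (p.2, p.1) :=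
      (hkm.comp measurable_snd).mul (PH_meas.comp (measurable_snd.prodMk measurable_fst))
    exact m1.lintegral_prod_right'
  have hm := tau_mix hc hT0 hf
  have hm' : ∫⁻ τ in Set.Ioi (0 : ℝ), ENNReal.ofReal (kc c τ) * Zu K T τ =
      ∫⁻ y in Set.Ioc (1 / 2 : ℝ) 1, ENNReal.ofReal (c * T / (2 * y ^ 2)) *
        ∫⁻ t in Set.Ioi (0 : ℝ), ENNReal.ofReal (2 * (c * T / y) / ((c * T / y) ^ 2 + t ^ 2)) *
          ∫⁻ u in Set.Ioi (0 : ℝ), k u * PH (u, t) := by
    rw [← hm, hk]
    rfl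
  rw [hm']
  obtain ⟨W, hW⟩ : ∃ W, W = π * Real.sqrt π * Real.log T ^ 2 * (I + δ) := ⟨_, rfl⟩
  have hW0 : 0 ≤ W := by rw [hW]; positivity
  have hy : ∀ y ∈ Set.Ioc (1 / 2 : ℝ) 1, ENNReal.ofReal (c * T / (2 * y ^ 2)) *
        ∫⁻ t in Set.Ioi (0 : ℝ), ENNReal.ofReal (2 * (c * T / y) / ((c * T / y) ^ 2 + t ^ 2)) *
          ∫⁻ u in Set.Ioi (0 : ℝ), k u * PH (u, t) ≤
        ENNReal.ofReal (c * T / (2 * y ^ 2)) * ENNReal.ofReal W := by
    intro y hy
    have hy0 : 0 < y := by linarith [hy.1]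
    obtain ⟨S, hS⟩ : ∃ S, S = c * T / y := ⟨_, rfl⟩
    have hS1 : c * T ≤ S := by
      rw [hS, le_div_iff₀ hy0]
      exact mul_le_of_le_one_right hR.le hy.2
    have hS2 : S ≤ 2 * (c * T) := by
      rw [hS, div_le_iff₀ hy0]
      nlinarith [hy.1]
    have hS0 : 0 < S := by linarith
    refine mul_le_mul_right ?_ _
    rw [← hS]
    refine (ker_in (η := η) hkm PH_meas fun u => PH_bound hS0 hη u).trans ?_
    have g0 := h0 S hS1 hS2
    have g1 := h1 (S / 2) (by linarith) (by linarith)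
    rw [← hk] at g0 g1
    refine (mul_le_mul_right (add_le_add (mul_le_mul_right g0 _) (mul_le_mul_right g1 _)) _).trans ?_
    rw [← ENNReal.ofReal_mul (by positivity), ← ENNReal.ofReal_mul (by positivity),
      ← ENNReal.ofReal_add (by positivity) (by positivity), ← ENNReal.ofReal_mul hpi.le]
    refine ENNReal.ofReal_le_ofReal ?_
    have e1 : (1 + η) * S ^ 2 * (Real.sqrt π * (I + δ / 4) * Real.log T ^ 2 / S ^ 2) =
        Real.sqrt π * Real.log T ^ 2 * ((1 + η) * (I + δ / 4)) := by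
      field_simp
    have e2 : 2 * (1 + 1 / η) * (C' * Real.log T ^ 2 / (S / 2) ^ 2) ≤
        Real.sqrt π * (δ / 2) * Real.log T ^ 2 := by
      have h3 : C' / (S / 2) ^ 2 ≤ C' / (c / 2 * T) ^ 2 := by
        refine div_le_div_of_nonneg_left hC' (by positivity) ?_
        exact pow_le_pow_left₀ (by positivity) (by linarith) 2
      calc 2 * (1 + 1 / η) * (C' * Real.log T ^ 2 / (S / 2) ^ 2) =
          2 * (1 + 1 / η) * (C' / (S / 2) ^ 2) * Real.log T ^ 2 := by ring
        _ ≤ 2 * (1 + 1 / η) * (C' / (c / 2 * T) ^ 2) * Real.log T ^ 2 := by gcongr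
        _ ≤ _ := mul_le_mul_of_nonneg_right ht.le (by positivity)
    rw [e1]
    have e3 : Real.sqrt π * Real.log T ^ 2 * ((1 + η) * (I + δ / 4)) ≤
        Real.sqrt π * Real.log T ^ 2 * (I + δ / 2) := mul_le_mul_of_nonneg_left hη2 (by positivity)
    calc π * (Real.sqrt π * Real.log T ^ 2 * ((1 + η) * (I + δ / 4)) +
        2 * (1 + 1 / η) * (C' * Real.log T ^ 2 / (S / 2) ^ 2)) ≤
        π * (Real.sqrt π * Real.log T ^ 2 * (I + δ / 2) +
          Real.sqrt π * (δ / 2) * Real.log T ^ 2) :=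
          mul_le_mul_of_nonneg_left (add_le_add e3 e2) hpi.le
      _ = W := by rw [hW]; ring
  refine (setLIntegral_mono' measurableSet_Ioc hy).trans ?_
  rw [lintegral_mul_const' _ _ ENNReal.ofReal_ne_top, y_mass hR.le,
    ← ENNReal.ofReal_mul (by positivity)]
  refine ENNReal.ofReal_le_ofReal ?_
  rw [hW]
  have h3 : c * T / 2 * (π * Real.sqrt π * Real.log T ^ 2 * (I + δ)) =
      π * Real.sqrt π / 2 * (c * T * Real.log T ^ 2) * (I + δ) := by ring
  rw [h3]
  exact mul_le_mul_of_nonneg_left (by linarith) (by positivity)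

/-- the Riemann hypothesis from the windows -/
theorem HW.toUH (h : HW) : UH 1 := by
  intro ε hε
  refine ⟨2, fun b hb => ?_⟩
  have hb0 : 0 < b := by linarith
  obtain ⟨K, hK⟩ : ∃ K : ℝ → ℝ, K = fun α => max (1 - α / b) 0 := ⟨_, rfl⟩
  have hK0 : ∀ x, 0 ≤ K x := fun x => by
    rw [hK]
    exact le_max_right _ _
  have hKc : Continuous K := by
    rw [hK]
    fun_prop
  have hKl : ∀ x y, |K x - K y| ≤ 1 / b * |x - y| := by
    intro x y
    rw [hK]
    refine (abs_max_sub_max_le_abs _ _ _).trans (le_of_eq ?_)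
    have : 1 - x / b - (1 - y / b) = -((x - y) / b) := by ring
    rw [this, abs_neg, abs_div, abs_of_pos hb0]
    ring
  have hint : ∫ α in (1 : ℝ)..b, K α ≤ b / 2 := by
    have h1 : ∫ α in (1 : ℝ)..b, K α = ∫ α in (1 : ℝ)..b, (1 - α / b) := by
      refine intervalIntegral.integral_congr fun α hα => ?_
      rw [Set.uIcc_of_le (by linarith)] at hα
      rw [hK]
      refine max_eq_left ?_
      have : α / b ≤ 1 := by
        rw [div_le_one hb0]
        exact hα.2
      linarith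
    rw [h1, intervalIntegral.integral_sub (by simp) (by
      exact (continuous_id.div_const b).intervalIntegrable _ _), intervalIntegral.integral_const,
      intervalIntegral.integral_div, integral_id, smul_eq_mul]
    have h2 : (b - 1) * 1 - (b ^ 2 - 1 ^ 2) / 2 / b = b / 2 - (b - 1 / 2) / b := by
      field_simp
      ring
    rw [h2]
    have h3 : 0 ≤ (b - 1 / 2) / b := div_nonneg (by linarith) hb0.le
    linarith
  filter_upwards [rsum (by norm_num) (by linarith) (h b (by linarith)) hK0 hKc hKl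
    (show 0 < ε * (b / 2) by positivity), eventually_gt_atTop 1] with T h1 hT
  have hL : 0 < Real.log T := Real.log_pos hT
  have hTp : 0 < T := by linarith
  have h2 : Jf 1 b T ≤ ∫⁻ v in Set.Ioc (1 * Real.log T) (b * Real.log T),
      ENNReal.ofReal (K (v / Real.log T)) * qd (v, Real.log (1 + 1 / T)) := by
    unfold Jf
    rw [← lintegral_indicator measurableSet_Ioi, ← lintegral_indicator measurableSet_Ioc]
    refine lintegral_mono fun v => ?_
    by_cases hv : v ∈ Set.Ioi (1 * Real.log T)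
    · rw [Set.indicator_of_mem hv]
      by_cases hv2 : v ≤ b * Real.log T
      · rw [Set.indicator_of_mem (show v ∈ Set.Ioc (1 * Real.log T) (b * Real.log T) from
          ⟨hv, hv2⟩)]
        refine mul_le_mul_left (ENNReal.ofReal_le_ofReal ?_) _
        rw [hK]
        refine le_trans (le_of_eq ?_) (le_max_left _ _)
        rw [div_div, mul_comm]
      · have h3 : 1 - v / (b * Real.log T) ≤ 0 := by
          have : 1 ≤ v / (b * Real.log T) := by
            rw [le_div_iff₀ (by positivity), one_mul]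
            exact (not_le.1 hv2).le
          linarith
        rw [ENNReal.ofReal_of_nonpos h3, zero_mul]
        exact zero_le
    · rw [Set.indicator_of_notMem hv]
      exact zero_le
  refine h2.trans (h1.trans (ENNReal.ofReal_le_ofReal ?_))
  refine mul_le_mul_of_nonneg_right ?_ (by positivity)
  linarith

theorem HW.RH (h : HW) : RiemannHypothesis := UH.RH (A := 1) (by norm_num) h.toUH

theorem HW.limit (h : HW) (y : ℝ) :
    Tendsto (fun T => Aa T y) atTop (𝓝 (AG y)) :=
  Aa_limit h.RH h.toZU y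

end Pool.Agent.H7.AC
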